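import Pool.Agent.Helper69.SM.MV

/-!
# SI: integrability with the weight `wt`
-/

open MeasureTheory Set Filter Topology
open Pool.Agent.Helper57.Zeta Pool.Agent.Helper57.PC Pool.Agent.Helper57.LH Pool.Agent.Helper78.SG
open Pool.Agent.Helper4.SH Pool.Agent.Helper69.SM

namespace Pool.Agent.Helper22.SI

theorem wt_zero (g : TF) (x : ℝ) {T : ℝ} (hT : 0 < T) {t : ℝ}
    (ht : t ∉ Icc (x + T * (1 / 2 - g.th)) (x + T * (1 / 2 + g.th))) : wt g.h x T t = 0 := by
  unfold wt
  apply g.supp
  by_contra h
  apply ht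
  have h2 := abs_le.mp (not_le.mp h).le
  have h3 : t - x = T * ((t - x) / T) := by field_simp
  constructor
  · have : T * (1 / 2 - g.th) ≤ T * ((t - x) / T) := mul_le_mul_of_nonneg_left (by linarith [h2.1]) hT.le
    linarith
  · have : T * ((t - x) / T) ≤ T * (1 / 2 + g.th) := mul_le_mul_of_nonneg_left (by linarith [h2.2]) hT.le
    linarith

theorem wtI (g : TF) (x : ℝ) {T : ℝ} (hT : 0 < T) {F : ℝ → ℝ} (hF : Continuous F) :
    Integrable (fun t => wt g.h x T t * F t) := by
  apply ((wt_cont g x T).mul hF).integrable_of_hasCompactSupport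
  refine HasCompactSupport.of_support_subset_isCompact
    (isCompact_Icc (a := x + T * (1 / 2 - g.th)) (b := x + T * (1 / 2 + g.th))) ?_
  intro t ht
  by_contra hc
  apply ht
  show wt g.h x T t * F t = 0
  rw [wt_zero g x hT hc, zero_mul]

end Pool.Agent.Helper22.SI
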