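import Pool.Agent.Helper22.SI.Den
import Pool.Agent.Helper78.SG.ExpMoment

/-!
# SI: almost all short intervals, without weight, every `b > 0`

The exponential moment of the depth of the zeros of `[0, 4X]` is averaged over the short intervals `[x, x + x^b]`, `X ≤ x ≤ 2X`.
-/

open MeasureTheory Set Filter Topology
open Pool.Agent.Helper57.Zeta Pool.Agent.Helper57.PC Pool.Agent.Helper57.LH Pool.Agent.Helper78.SG
open Pool.Agent.Helper4.SH
open scoped ENNReal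

namespace Pool.Agent.Helper22.SI

open Pool.Agent.Helper69.PP (CloseUpC)

/-- the average of a local sum over the short intervals: Markov's inequality -/
theorem markov_short (F : Finset ZS) (w : ZS → ℝ) (hw : ∀ ρ ∈ F, 0 ≤ w ρ) {H t S : ℝ} (hH : 0 ≤ H) (ht : 0 < t)
    (hS : ∑ ρ ∈ F, w ρ ≤ S) :
    volume {x : ℝ | t < ∑ ρ ∈ F, (Icc ((ρ : ℂ).im - H) (ρ : ℂ).im).indicator (fun _ => w ρ) x} ≤
      ENNReal.ofReal (H * S / t) := by
  classical
  obtain ⟨G, hG⟩ : ∃ G : ℝ → ℝ≥0∞, G = fun x => ∑ ρ ∈ F, (Icc ((ρ : ℂ).im - H) (ρ : ℂ).im).indicator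
      (fun _ => ENNReal.ofReal (w ρ)) x := ⟨_, rfl⟩
  have hGm : Measurable G := by
    rw [hG]
    exact Finset.measurable_fun_sum _ fun ρ _ => measurable_const.indicator measurableSet_Icc
  have hint : ∫⁻ x, G x = ENNReal.ofReal (H * ∑ ρ ∈ F, w ρ) := by
    rw [hG, lintegral_finsetSum _ (fun ρ _ => measurable_const.indicator measurableSet_Icc), Finset.mul_sum,
      ENNReal.ofReal_sum_of_nonneg (fun ρ hρ => mul_nonneg hH (hw ρ hρ))]
    refine Finset.sum_congr rfl fun ρ hρ => ?_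
    rw [lintegral_indicator_const measurableSet_Icc, Real.volume_Icc, mul_comm, ← ENNReal.ofReal_mul (by linarith)]
    congr 1
    ring
  have heq : ∀ x : ℝ, G x = ENNReal.ofReal (∑ ρ ∈ F, (Icc ((ρ : ℂ).im - H) (ρ : ℂ).im).indicator (fun _ => w ρ) x) := by
    intro x
    rw [hG, ENNReal.ofReal_sum_of_nonneg]
    · refine Finset.sum_congr rfl fun ρ _ => ?_
      by_cases h : x ∈ Icc ((ρ : ℂ).im - H) (ρ : ℂ).im
      · rw [indicator_of_mem h, indicator_of_mem h]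
      · rw [indicator_of_notMem h, indicator_of_notMem h, ENNReal.ofReal_zero]
    · intro ρ hρ
      by_cases h : x ∈ Icc ((ρ : ℂ).im - H) (ρ : ℂ).im
      · rw [indicator_of_mem h]
        exact hw ρ hρ
      · rw [indicator_of_notMem h]
  have hsub : {x : ℝ | t < ∑ ρ ∈ F, (Icc ((ρ : ℂ).im - H) (ρ : ℂ).im).indicator (fun _ => w ρ) x} ⊆
      {x : ℝ | ENNReal.ofReal t ≤ G x} := by
    intro x hx
    show ENNReal.ofReal t ≤ G x
    rw [heq x]
    exact ENNReal.ofReal_le_ofReal (le_of_lt hx)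
  refine (measure_mono hsub).trans ?_
  refine (meas_ge_le_lintegral_div hGm.aemeasurable (ENNReal.ofReal_pos.2 ht).ne' ENNReal.ofReal_ne_top).trans ?_
  rw [hint, ← ENNReal.ofReal_div_of_pos ht]
  refine ENNReal.ofReal_le_ofReal ?_
  gcongr

/-- close successors in almost all short intervals, without weight, for every `b > 0` -/
theorem close_aa {b δ : ℝ} (hb : 0 < b) (hb1 : b ≤ 1) (hδ : 0 < δ) :
    ∃ κ : ℝ, 0 < κ ∧ ∀ᶠ X : ℝ in atTop,
      volume {x : ℝ | x ∈ Icc X (2 * X) ∧ ∑ ρ ∈ UZ (103 / (103 + 97 * b)) x (x ^ b), mx (ρ : ℂ) <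
        κ * (x ^ b * Real.log x)} ≤ ENNReal.ofReal (δ * X) := by
  classical
  obtain ⟨κ, C, hκ, hC, hexp⟩ := exp_moment
  obtain ⟨p, hp, h⟩ := short_close hb hb1 (half_pos hκ)
  obtain ⟨K, hK⟩ : ∃ K : ℝ, K = 16 * C / δ := ⟨_, rfl⟩
  have hK0 : 0 < K := by rw [hK]; positivity
  refine ⟨p ^ 2 / K, by positivity, ?_⟩
  obtain ⟨x1, hx1⟩ := eventually_atTop.mp h
  have h4 : Tendsto (fun X : ℝ => 4 * X) atTop atTop := tendsto_id.const_mul_atTop (by norm_num)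
  filter_upwards [h4.eventually hexp, eventually_ge_atTop x1, eventually_ge_atTop (4 : ℝ)] with X hX hXx hX4
  have hX0 : 0 < X := by linarith
  have hLX : 0 < Real.log X := Real.log_pos (by linarith)
  have hXb : 0 < X ^ b := Real.rpow_pos_of_pos hX0 b
  have hlog4 : Real.log (4 * X) ≤ 2 * Real.log X := by
    rw [Real.log_mul (by norm_num) hX0.ne']
    have := Real.log_le_log (by norm_num) hX4
    linarith
  have h2X : (2 * X) ^ b ≤ 2 * X ^ b := by
    rw [Real.mul_rpow (by norm_num) hX0.le]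
    apply mul_le_mul_of_nonneg_right _ hXb.le
    calc (2 : ℝ) ^ b ≤ 2 ^ (1 : ℝ) := Real.rpow_le_rpow_of_exponent_le (by norm_num) hb1
      _ = 2 := Real.rpow_one 2
  obtain ⟨w, hw⟩ : ∃ w : ZS → ℝ, w = fun ρ : ZS => mx (ρ : ℂ) * Real.exp (κ * |Real.log (4 * X) * ((ρ : ℂ).re - 1 / 2)|) :=
    ⟨_, rfl⟩
  have hw0 : ∀ ρ ∈ ZT (4 * X), 0 ≤ w ρ := fun ρ _ => by
    rw [hw]
    exact mul_nonneg (mx_nonneg _) (Real.exp_pos _).le
  have hS : ∑ ρ ∈ ZT (4 * X), w ρ ≤ C * (4 * X * Real.log (4 * X)) := by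
    rw [hw]
    exact hX
  have hmark := markov_short (ZT (4 * X)) w hw0 (H := (2 * X) ^ b) (t := K * (X ^ b * Real.log X))
    (Real.rpow_nonneg (by linarith) _) (by positivity) hS
  refine le_trans (measure_mono ?_) (hmark.trans (ENNReal.ofReal_le_ofReal ?_))
  · rintro x ⟨⟨hxX, hx2X⟩, hx⟩
    show K * (X ^ b * Real.log X) < ∑ ρ ∈ ZT (4 * X), (Icc ((ρ : ℂ).im - (2 * X) ^ b) (ρ : ℂ).im).indicator (fun _ => w ρ) x
    have hx0 : 0 < x := by linarith
    have hxx : x1 ≤ x := by linarith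
    have hlow := hx1 x hxx
    have hL : 0 < Real.log x := Real.log_pos (by linarith)
    have hH : 0 < x ^ b := Real.rpow_pos_of_pos hx0 b
    have hHx : x ^ b ≤ x := by
      calc x ^ b ≤ x ^ (1 : ℝ) := Real.rpow_le_rpow_of_exponent_le (by linarith) hb1
        _ = x := Real.rpow_one x
    have hHX : x ^ b ≤ (2 * X) ^ b := Real.rpow_le_rpow hx0.le hx2X hb.le
    obtain ⟨Y, hYe⟩ : ∃ Y : ℝ, Y = x ^ b * Real.log x := ⟨_, rfl⟩
    obtain ⟨S, hSe⟩ : ∃ S : Finset ZS, S = UZ (103 / (103 + 97 * b)) x (x ^ b) := ⟨_, rfl⟩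
    have hY : 0 < Y := by rw [hYe]; positivity
    rw [← hYe, ← hSe] at hlow hx
    have hcs := cs_sum S (fun ρ => mx (ρ : ℂ)) (fun ρ => x ^ (κ / 2 * |(ρ : ℂ).re - 1 / 2|)) (fun ρ _ => mx_nonneg _)
    obtain ⟨E, hE⟩ : ∃ E : ℝ, E = ∑ ρ ∈ S, mx (ρ : ℂ) * (x ^ (κ / 2 * |(ρ : ℂ).re - 1 / 2|)) ^ 2 := ⟨_, rfl⟩
    rw [← hE] at hcs
    have hsum0 : 0 ≤ ∑ ρ ∈ S, mx (ρ : ℂ) := Finset.sum_nonneg fun ρ _ => mx_nonneg _
    have hEK : K * Y < E := by
      by_contra hcon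
      rw [not_lt] at hcon
      have h3 : (p * Y) ^ 2 ≤ (∑ ρ ∈ S, mx (ρ : ℂ)) * (K * Y) := by
        calc (p * Y) ^ 2 ≤ (∑ ρ ∈ S, mx (ρ : ℂ) * x ^ (κ / 2 * |(ρ : ℂ).re - 1 / 2|)) ^ 2 :=
              pow_le_pow_left₀ (by positivity) hlow 2
          _ ≤ _ := hcs
          _ ≤ _ := mul_le_mul_of_nonneg_left hcon hsum0
      have h5 : (∑ ρ ∈ S, mx (ρ : ℂ)) * (K * Y) < (p ^ 2 / K * Y) * (K * Y) :=
        mul_lt_mul_of_pos_right hx (by positivity)
      have h6 : (p ^ 2 / K * Y) * (K * Y) = (p * Y) ^ 2 := by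
        field_simp
      linarith
    have hXY : X ^ b * Real.log X ≤ Y := by
      rw [hYe]
      exact mul_le_mul (Real.rpow_le_rpow hX0.le hxX hb.le) (Real.log_le_log hX0 hxX) hLX.le hH.le
    have hEw : E ≤ ∑ ρ ∈ ZT (4 * X), (Icc ((ρ : ℂ).im - (2 * X) ^ b) (ρ : ℂ).im).indicator (fun _ => w ρ) x := by
      have hSsub : S ⊆ ZT (4 * X) := by
        intro ρ hρ
        rw [hSe, mem_UZ hx0.le] at hρ
        rw [mem_ZT]
        constructor <;> linarith [hρ.1, hρ.2.1]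
      have hind0 : ∀ ρ ∈ ZT (4 * X), 0 ≤ (Icc ((ρ : ℂ).im - (2 * X) ^ b) (ρ : ℂ).im).indicator (fun _ => w ρ) x := by
        intro ρ hρ
        exact indicator_nonneg (fun _ _ => hw0 ρ hρ) x
      rw [hE]
      refine le_trans (Finset.sum_le_sum fun ρ hρ => ?_)
        (Finset.sum_le_sum_of_subset_of_nonneg hSsub fun ρ hρ _ => hind0 ρ hρ)
      have hm := hρ
      rw [hSe, mem_UZ hx0.le] at hm
      rw [indicator_of_mem (show x ∈ Icc ((ρ : ℂ).im - (2 * X) ^ b) (ρ : ℂ).im from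
        ⟨by linarith [hm.2.1], hm.1⟩), hw]
      show mx (ρ : ℂ) * (x ^ (κ / 2 * |(ρ : ℂ).re - 1 / 2|)) ^ 2 ≤
        mx (ρ : ℂ) * Real.exp (κ * |Real.log (4 * X) * ((ρ : ℂ).re - 1 / 2)|)
      apply mul_le_mul_of_nonneg_left _ (mx_nonneg _)
      rw [← Real.rpow_natCast, ← Real.rpow_mul hx0.le, Real.rpow_def_of_pos hx0, abs_mul,
        abs_of_nonneg (Real.log_nonneg (by linarith : (1 : ℝ) ≤ 4 * X))]
      apply Real.exp_le_exp.2
      have h7 : Real.log x ≤ Real.log (4 * X) := Real.log_le_log hx0 (by linarith)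
      have h8 := abs_nonneg ((ρ : ℂ).re - 1 / 2)
      calc Real.log x * (κ / 2 * |(ρ : ℂ).re - 1 / 2| * ((2 : ℕ) : ℝ)) = κ * (Real.log x * |(ρ : ℂ).re - 1 / 2|) := by
            push_cast
            ring
        _ ≤ κ * (Real.log (4 * X) * |(ρ : ℂ).re - 1 / 2|) := by gcongr
    calc K * (X ^ b * Real.log X) ≤ K * Y := mul_le_mul_of_nonneg_left hXY hK0.le
      _ < E := hEK
      _ ≤ _ := hEw
  · rw [div_le_iff₀ (by positivity)]
    have hl4 : 0 ≤ Real.log (4 * X) := Real.log_nonneg (by linarith)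
    calc (2 * X) ^ b * (C * (4 * X * Real.log (4 * X))) ≤ (2 * X ^ b) * (C * (4 * X * (2 * Real.log X))) := by gcongr
      _ = 16 * C * (X * (X ^ b * Real.log X)) := by ring
      _ = δ * X * (K * (X ^ b * Real.log X)) := by
          rw [hK]
          field_simp

end Pool.Agent.Helper22.SI
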