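import Pool.Agent.Helper69.PQ.Close

/-!
# SI, arithmetic: the inequality for a smaller window

If `P'` is `P` with the window `c` replaced by `c' ≤ c`, then `AT P' = AT P` and `BT P' ≥ (c'/c) BT P`.
-/

open MeasureTheory Set Filter Topology
open Pool.Agent.Helper57.Zeta Pool.Agent.Helper57.PC Pool.Agent.Helper57.LH Pool.Agent.Helper78.SG
open Pool.Agent.Helper4.SH
open Pool.Agent.Helper69

namespace Pool.Agent.Helper22.SI

/-- `sin x/x` decreases on `[0, π]` -/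
theorem sinc_anti {a b : ℝ} (ha : 0 ≤ a) (hab : a ≤ b) (hb : b ≤ Real.pi) : Real.sinc b ≤ Real.sinc a := by
  rcases eq_or_lt_of_le ha with h | ha0
  · rw [← h, Real.sinc_zero]
    exact Real.sinc_le_one b
  · have hb0 : 0 < b := ha0.trans_le hab
    rw [Real.sinc_of_ne_zero hb0.ne', Real.sinc_of_ne_zero ha0.ne', div_le_div_iff₀ hb0 ha0]
    have h0 : 0 ≤ a / b := by positivity
    have h0' : 0 ≤ 1 - a / b := by
      rw [sub_nonneg, div_le_one hb0]
      exact hab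
    have hm1 : b ∈ Icc (0 : ℝ) Real.pi := ⟨hb0.le, hb⟩
    have hm2 : (0 : ℝ) ∈ Icc (0 : ℝ) Real.pi := ⟨le_rfl, Real.pi_pos.le⟩
    have h1 := (strictConcaveOn_sin_Icc.concaveOn).2 hm1 hm2 h0 h0' (by ring)
    simp only [smul_eq_mul, Real.sin_zero, mul_zero, add_zero] at h1
    have h2 : a / b * b = a := by field_simp
    rw [h2] at h1
    calc Real.sin b * a = (a / b * Real.sin b) * b := by field_simp
      _ ≤ Real.sin a * b := mul_le_mul_of_nonneg_right h1 hb0.le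

theorem SBc_scale {c c' y : ℝ} (hc' : 0 < c') (hcc : c' ≤ c) (hc1 : c ≤ 1) (hy : 0 ≤ y) (hy1 : y ≤ 1) :
    c' / c * PP.SBc c y ≤ PP.SBc c' y := by
  have hc : 0 < c := hc'.trans_le hcc
  unfold PP.SBc
  have h1 : c' / c * (c * Real.sinc (Real.pi * c * y)) = c' * Real.sinc (Real.pi * c * y) := by
    field_simp
  rw [h1]
  apply mul_le_mul_of_nonneg_left _ hc'.le
  have hpi := Real.pi_pos
  apply sinc_anti (by positivity)
  · gcongr
  · calc Real.pi * c * y ≤ Real.pi * 1 * 1 := by gcongr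
      _ = Real.pi := by ring

theorem Wn_scale {c c' T : ℝ} (hc' : 0 < c') (hcc : c' ≤ c) (hc1 : c ≤ 1) (hT : 1 < T) {n : ℕ} (hn : n ≠ 0)
    (hnT : (n : ℝ) ≤ T) : c' / c * PP.Wn c T n ≤ PP.Wn c' T n := by
  unfold PP.Wn
  rw [Finset.mul_sum]
  refine Finset.sum_le_sum fun p hp => ?_
  have hpp := Nat.prime_of_mem_primeFactors hp
  have hpn : p ≤ n := Nat.le_of_dvd (Nat.pos_of_ne_zero hn) (Nat.dvd_of_mem_primeFactors hp)
  have hL : 0 < Real.log T := Real.log_pos hT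
  have hy0 : 0 ≤ yy T p := by
    unfold yy
    exact div_nonneg (Real.log_nonneg (by exact_mod_cast hpp.one_le)) hL.le
  have hy1 : yy T p ≤ 1 := by
    unfold yy
    rw [div_le_one hL]
    exact Real.log_le_log (by exact_mod_cast hpp.pos) ((by exact_mod_cast hpn : (p : ℝ) ≤ n).trans hnT)
  have h1 := SBc_scale hc' hcc hc1 hy0 hy1
  calc c' / c * (2 * yy T p * PP.SBc c (yy T p)) = 2 * yy T p * (c' / c * PP.SBc c (yy T p)) := by ring
    _ ≤ 2 * yy T p * PP.SBc c' (yy T p) := mul_le_mul_of_nonneg_left h1 (by positivity)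

/-- `P` with another window -/
noncomputable def withc (P : PQ.Par) (c' : ℝ) (h0 : 0 < c') (h1 : c' < 1) : PQ.Par := { P with c := c', hc := h0, hc1 := h1 }

theorem AT_withc (P : PQ.Par) {c' : ℝ} (h0 : 0 < c') (h1 : c' < 1) (T : ℝ) : PQ.AT (withc P c' h0 h1) T = PQ.AT P T := rfl

theorem BT_withc (P : PQ.Par) {c' : ℝ} (h0 : 0 < c') (h1 : c' < 1) (hcc : c' ≤ P.c) {T : ℝ} (hT : 1 < T) :
    c' / P.c * PQ.BT P T ≤ PQ.BT (withc P c' h0 h1) T := by
  have e : PQ.BT (withc P c' h0 h1) T =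
      ∑ x ∈ PQ.IX P T, 1 / ((x.1 : ℝ) * x.2) * (PP.Wn c' T x.1 + PP.Wn c' T x.2) := rfl
  rw [e]
  unfold PQ.BT
  rw [Finset.mul_sum]
  refine Finset.sum_le_sum fun x hx => ?_
  have hx' := PQ.mem_IX.1 hx
  have hA := (PQ.mem_NA.1 hx'.1).1
  have hB := (PQ.mem_NB.1 hx'.2.1).1
  have w1 := Wn_scale h0 hcc P.hc1.le hT hA.1.1 hA.2.2.2
  have w2 := Wn_scale h0 hcc P.hc1.le hT hB.1.1 hB.2.2.2
  calc c' / P.c * (1 / ((x.1 : ℝ) * x.2) * (PP.Wn P.c T x.1 + PP.Wn P.c T x.2)) =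
      1 / ((x.1 : ℝ) * x.2) * (c' / P.c * PP.Wn P.c T x.1 + c' / P.c * PP.Wn P.c T x.2) := by ring
    _ ≤ 1 / ((x.1 : ℝ) * x.2) * (PP.Wn c' T x.1 + PP.Wn c' T x.2) :=
        mul_le_mul_of_nonneg_left (add_le_add w1 w2) (by positivity)

/-- the arithmetic inequality for the window `c'` -/
theorem arith {c' : ℝ} (h0 : 0 < c') (hcc : c' ≤ 103 / 200) : ∃ P : PQ.Par, P.c = c' ∧
    ∀ᶠ T : ℝ in atTop, c' * (485001 / 515000) * PQ.AT P T ≤ PQ.BT P T := by
  obtain ⟨ε, hε⟩ : ∃ ε : ℝ, ε = 1 / 10 ^ 20 := ⟨_, rfl⟩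
  have hε0 : 0 < ε := by rw [hε]; norm_num
  obtain ⟨P, hPc, hPe, hPδ, hF, hC⟩ := PQ.exists_par (c := 103 / 200) (ε := ε) (by norm_num) (by norm_num) hε0
    (by rw [hε]; norm_num)
  have hA := Helper57.PR.sumA2 P hPe hPc hε0 (by rw [hε]; norm_num) hPδ hF hC
  have hS := Helper57.PR.sumB2 P hPe hPc hε0 (by rw [hε]) hPδ hF hC
  have h := PQ.reduce P (mu := 485001 / 1000000) (wA := 252859 / 1000000) (rho := 1 / 10 ^ 5)
    (by rw [abs_le]; constructor <;> norm_num) (by norm_num) (by norm_num) (by norm_num) hA (by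
      filter_upwards [hS] with T hT
      refine hT.trans (le_of_eq (Finset.sum_congr rfl fun n _ => ?_))
      norm_num)
  have h1 : c' < 1 := lt_of_le_of_lt hcc (by norm_num)
  refine ⟨withc P c' h0 h1, rfl, ?_⟩
  filter_upwards [h, eventually_gt_atTop 1] with T hT hT1
  rw [AT_withc]
  refine le_trans ?_ (BT_withc P h0 h1 (by rw [hPc]; exact hcc) hT1)
  rw [hPc]
  have h2 : c' / (103 / 200) * (485001 / 1000000 * PQ.AT P T) ≤ c' / (103 / 200) * PQ.BT P T :=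
    mul_le_mul_of_nonneg_left hT (by positivity)
  refine le_trans (le_of_eq ?_) h2
  ring

end Pool.Agent.Helper22.SI
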