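import Pool.Agent.Helper69.PP.Defs
import Pool.Agent.Helper69.SM.Defs
import Pool.Agent.Helper22.SI.WtI

/-!
# SI: uniform integrability over short intervals
-/

open MeasureTheory Set Filter Topology
open Pool.Agent.Helper57.Zeta Pool.Agent.Helper57.PC Pool.Agent.Helper57.LH Pool.Agent.Helper78.SG
open Pool.Agent.Helper4.SH Pool.Agent.Helper69.SM
open scoped ContDiff

namespace Pool.Agent.Helper22.SI

/-- uniform integrability of `F (1 + |pss|)` with the weight `wt`, uniformly in `x` -/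
def UIS (g f : TF) (s : ℝ) (F : ℝ → ℝ → ℝ) : Prop :=
  (∃ C : ℝ, 0 < C ∧ ∀ᶠ T : ℝ in atTop, ∀ x : ℝ, ∫ t, wt g.h x T t * (|F T t| * (1 + |pss f.h s T t|)) ≤ C * T) ∧
  ∀ ε : ℝ, 0 < ε → ∃ η : ℝ, 0 < η ∧ ∀ᶠ T : ℝ in atTop, ∀ x : ℝ, ∀ B : Set ℝ, MeasurableSet B →
    volume B ≤ ENNReal.ofReal (η * T) → ∫ t in B, wt g.h x T t * (|F T t| * (1 + |pss f.h s T t|)) ≤ ε * T

end Pool.Agent.Helper22.SI
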