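import Pool.Agent.Helper22.SI.Fin
import Pool.Agent.Helper57.DS.Fin2

/-!
# SI: without the weight when `b > 1/2`

For `b > 1/2` the exponential moment of the depth of the zeros of `[x, x + x^b]` (project DS) and Cauchy-Schwarz remove the weight.
-/

open MeasureTheory Set Filter Topology
open Pool.Agent.Helper57.Zeta Pool.Agent.Helper57.PC Pool.Agent.Helper57.LH Pool.Agent.Helper78.SG
open Pool.Agent.Helper4.SH

namespace Pool.Agent.Helper22.SI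

open Pool.Agent.Helper69.PP (CloseUpC)

theorem cs_sum {ι : Type} (S : Finset ι) (m w : ι → ℝ) (hm : ∀ i ∈ S, 0 ≤ m i) :
    (∑ i ∈ S, m i * w i) ^ 2 ≤ (∑ i ∈ S, m i) * ∑ i ∈ S, m i * w i ^ 2 := by
  have h := Finset.sum_mul_sq_le_sq_mul_sq S (fun i => Real.sqrt (m i)) (fun i => Real.sqrt (m i) * w i)
  have e1 : ∑ i ∈ S, Real.sqrt (m i) * (Real.sqrt (m i) * w i) = ∑ i ∈ S, m i * w i := by
    refine Finset.sum_congr rfl fun i hi => ?_
    rw [← mul_assoc, Real.mul_self_sqrt (hm i hi)]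
  have e2 : ∑ i ∈ S, Real.sqrt (m i) ^ 2 = ∑ i ∈ S, m i :=
    Finset.sum_congr rfl fun i hi => Real.sq_sqrt (hm i hi)
  have e3 : ∑ i ∈ S, (Real.sqrt (m i) * w i) ^ 2 = ∑ i ∈ S, m i * w i ^ 2 := by
    refine Finset.sum_congr rfl fun i hi => ?_
    rw [mul_pow, Real.sq_sqrt (hm i hi)]
  rwa [e1, e2, e3] at h

/-- close successors in every short interval; no weight is needed for `b > 1/2` -/
theorem close_all {b d : ℝ} (hb : 0 < b) (hb1 : b ≤ 1) (hd : 0 ≤ d) (hbd : 0 < d ∨ 1 / 2 < b) :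
    ∃ κ : ℝ, 0 < κ ∧ ∀ᶠ x : ℝ in atTop, κ * (x ^ b * Real.log x) ≤
      ∑ ρ ∈ UZ (103 / (103 + 97 * b)) x (x ^ b), mx ρ * x ^ (d * |(ρ : ℂ).re - 1 / 2|) := by
  classical
  rcases hbd with hd0 | hb2
  · exact short_close hb hb1 hd0
  · obtain ⟨κ, C, hκ, hC, hexp⟩ := Pool.Agent.Helper57.DS.exp_moment_short hb2 hb1
    obtain ⟨p, hp, h⟩ := short_close hb hb1 (half_pos hκ)
    refine ⟨p ^ 2 / C, by positivity, ?_⟩
    filter_upwards [hexp, h, eventually_gt_atTop 1] with x h1 h2 hx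
    have hx0 : 0 < x := by linarith
    have hL : 0 < Real.log x := Real.log_pos hx
    have hH : 0 < x ^ b := Real.rpow_pos_of_pos hx0 b
    have hY : 0 < x ^ b * Real.log x := by positivity
    obtain ⟨Y, hYe⟩ : ∃ Y : ℝ, Y = x ^ b * Real.log x := ⟨_, rfl⟩
    obtain ⟨S, hS⟩ : ∃ S : Finset ZS, S = UZ (103 / (103 + 97 * b)) x (x ^ b) := ⟨_, rfl⟩
    rw [← hYe] at h1 h2 hY ⊢
    rw [← hS] at h2 ⊢
    have hcs := cs_sum S (fun ρ => mx (ρ : ℂ)) (fun ρ => x ^ (κ / 2 * |(ρ : ℂ).re - 1 / 2|)) (fun ρ _ => mx_nonneg _)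
    have hmom : ∑ ρ ∈ S, mx (ρ : ℂ) * (x ^ (κ / 2 * |(ρ : ℂ).re - 1 / 2|)) ^ 2 ≤ C * Y := by
      refine le_trans ?_ h1
      calc ∑ ρ ∈ S, mx (ρ : ℂ) * (x ^ (κ / 2 * |(ρ : ℂ).re - 1 / 2|)) ^ 2
          = ∑ ρ ∈ S, mx (ρ : ℂ) * Real.exp (κ * |Real.log x * ((ρ : ℂ).re - 1 / 2)|) := by
            refine Finset.sum_congr rfl fun ρ _ => ?_
            rw [← Real.rpow_natCast, ← Real.rpow_mul hx0.le, Real.rpow_def_of_pos hx0, abs_mul, abs_of_pos hL]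
            congr 2
            push_cast
            ring
        _ ≤ _ := by
            refine Finset.sum_le_sum_of_subset_of_nonneg ?_
              (fun ρ _ _ => mul_nonneg (mx_nonneg _) (Real.exp_pos _).le)
            intro ρ hρ
            rw [hS] at hρ
            unfold UZ at hρ
            rw [Finset.mem_filter] at hρ ⊢
            exact ⟨hρ.1, hρ.2.1⟩
    have hsum0 : 0 ≤ ∑ ρ ∈ S, mx (ρ : ℂ) := Finset.sum_nonneg fun ρ _ => mx_nonneg _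
    have h3 : (p * Y) ^ 2 ≤ (∑ ρ ∈ S, mx (ρ : ℂ)) * (C * Y) := by
      calc (p * Y) ^ 2 ≤ (∑ ρ ∈ S, mx (ρ : ℂ) * x ^ (κ / 2 * |(ρ : ℂ).re - 1 / 2|)) ^ 2 :=
            pow_le_pow_left₀ (by positivity) h2 2
        _ ≤ _ := hcs
        _ ≤ _ := mul_le_mul_of_nonneg_left hmom hsum0
    have h4 : p ^ 2 / C * Y ≤ ∑ ρ ∈ S, mx (ρ : ℂ) := by
      rw [div_mul_eq_mul_div, div_le_iff₀ hC]
      have h5 : (p ^ 2 * Y) * Y ≤ ((∑ ρ ∈ S, mx (ρ : ℂ)) * C) * Y := by nlinarith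
      exact le_of_mul_le_mul_right h5 hY
    refine h4.trans ?_
    refine Finset.sum_le_sum fun ρ _ => ?_
    exact le_mul_of_one_le_right (mx_nonneg _) (Real.one_le_rpow hx.le (by positivity))

end Pool.Agent.Helper22.SI
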