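import Pool.Agent.Helper69.PQ.E0
import Pool.Agent.Helper69.SM.MV

/-!
# SI: E1.lean of Helper69/PQ with the weight `wt g x T t` of the interval `[x, x + T]` instead of `om g T t`, uniformly in `x`

Adapted from Helper69/PQ/E1.lean; the mean value theorem `gmv` is replaced by `gmvS` (Helper69/SM/MV), which is uniform in `x`.
-/

open MeasureTheory Set Filter Topology
open Pool.Agent.Helper57.Zeta Pool.Agent.Helper57.PC Pool.Agent.Helper57.LH Pool.Agent.Helper78.SG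
open Pool.Agent.Helper4.SH Pool.Agent.Helper69.PP
open Pool.Agent.Helper69.SM (wt gmvS wt_cont)

namespace Pool.Agent.Helper69.PQ.SI

private theorem E1_pow_ev (K : ℝ) {κ ε : ℝ} (hκ : κ < 1) (hε : 0 < ε) : ∀ᶠ T : ℝ in atTop, K * T ^ κ ≤ ε * T := by
  have h := tendsto_rpow_neg_atTop (y := 1 - κ) (by linarith)
  have h2 := h.const_mul K
  rw [mul_zero] at h2
  filter_upwards [h2.eventually (gt_mem_nhds hε), eventually_gt_atTop (0 : ℝ)] with T hT h0
  have e : T ^ κ = T ^ (-(1 - κ)) * T := by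
    rw [← Real.rpow_add_one h0.ne']
    congr 1
    ring
  rw [e, ← mul_assoc]
  exact mul_le_mul_of_nonneg_right hT.le h0.le

private theorem E1_cfn_sq {x : ℕ × ℕ} : cfn x * cfn x = 1 / ((x.1 : ℝ) * x.2) := by
  unfold cfn
  have h0 : (0 : ℝ) ≤ (x.1 : ℝ) * x.2 := by positivity
  have h1 := lam_mul_self x.1
  have h2 := lam_mul_self x.2
  rw [div_mul_div_comm, Real.mul_self_sqrt h0]
  congr 1
  calc lam x.1 * lam x.2 * (lam x.1 * lam x.2) = (lam x.1 * lam x.1) * (lam x.2 * lam x.2) := by ring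
    _ = 1 := by rw [h1, h2, one_mul]

/-- the mean value of `|M|²` -/
theorem mean_FFS (P : Par) (g : TF) {ε : ℝ} (hε : 0 < ε) : ∀ᶠ T : ℝ in atTop, ∀ x : ℝ,
    |(∫ t, wt g.h x T t * FF P T t) - T * (∫ y, g.h y) * AT P T| ≤ ε * T := by
  obtain ⟨C, hC, hmv⟩ := gmvS g (δ := 1 / 4200) (by norm_num) 4200
  filter_upwards [eventually_gt_atTop 1, sum_cf P, E1_pow_ev (16 * C) (κ := 4199 / 4200) (by norm_num) hε]
    with T hT hcf hpow x0
  have hT0 : 0 < T := by linarith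
  have key := hmv x0 T hT.le ((ℕ × ℕ) × (ℕ × ℕ)) (IX P T ×ˢ IX P T)
    (fun z => cfn z.1 * cfn z.2) (fun z => z.1.1 * z.2.2) (fun z => z.1.2 * z.2.1) ?_
  · have e1 : ∀ t, (∑ z ∈ IX P T ×ˢ IX P T, cfn z.1 * cfn z.2 *
        Real.cos (t * (Real.log ((z.1.1 * z.2.2 : ℕ) : ℝ) - Real.log ((z.1.2 * z.2.1 : ℕ) : ℝ)))) = FF P T t := by
      intro t
      rw [Finset.sum_product, FF]
      refine Finset.sum_congr rfl fun x hx => Finset.sum_congr rfl fun y hy => ?_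
      obtain ⟨a1, a2⟩ := IX_ne hx
      obtain ⟨b1, b2⟩ := IX_ne hy
      have a1' : (x.1 : ℝ) ≠ 0 := by exact_mod_cast a1
      have a2' : (x.2 : ℝ) ≠ 0 := by exact_mod_cast a2
      have b1' : (y.1 : ℝ) ≠ 0 := by exact_mod_cast b1
      have b2' : (y.2 : ℝ) ≠ 0 := by exact_mod_cast b2
      simp only [Nat.cast_mul]
      rw [Real.log_mul a1' b2', Real.log_mul a2' b1', phn, phn]
      congr 2
      ring
    have e2 : (∑ z ∈ IX P T ×ˢ IX P T, (if z.1.1 * z.2.2 = z.1.2 * z.2.1 then cfn z.1 * cfn z.2 else 0)) =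
        AT P T := by
      rw [Finset.sum_product, AT]
      refine Finset.sum_congr rfl fun x hx => ?_
      rw [Finset.sum_eq_single_of_mem x hx]
      · simp only
        rw [if_pos (mul_comm _ _), E1_cfn_sq]
      · intro y hy hyx
        rw [if_neg]
        intro h
        exact hyx (diag_eq hx hy h).symm
    have e3 : (∑ z ∈ IX P T ×ˢ IX P T, |cfn z.1 * cfn z.2|) ≤ 16 * T ^ ((4199 : ℝ) / 4200) := by
      rw [Finset.sum_product]
      simp only [abs_mul]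
      rw [← Finset.sum_mul_sum]
      have h0 : 0 ≤ ∑ x ∈ IX P T, |cfn x| := Finset.sum_nonneg fun x _ => abs_nonneg _
      calc (∑ x ∈ IX P T, |cfn x|) * ∑ x ∈ IX P T, |cfn x|
          ≤ (4 * T ^ ((4199 : ℝ) / 8400)) * (4 * T ^ ((4199 : ℝ) / 8400)) := mul_self_le_mul_self h0 hcf
        _ = 16 * (T ^ ((4199 : ℝ) / 8400) * T ^ ((4199 : ℝ) / 8400)) := by ring
        _ = 16 * T ^ ((4199 : ℝ) / 4200) := by
            rw [← Real.rpow_add hT0]
            norm_num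
    simp only [e1] at key
    rw [e2] at key
    refine key.trans ?_
    have e4 : T ^ ((1 : ℝ) - 1 / 4200 * (4200 : ℕ)) = 1 := by
      have : (1 : ℝ) - 1 / 4200 * (4200 : ℕ) = 0 := by norm_num
      rw [this, Real.rpow_zero]
    rw [e4, mul_one]
    calc C * ∑ z ∈ IX P T ×ˢ IX P T, |cfn z.1 * cfn z.2| ≤ C * (16 * T ^ ((4199 : ℝ) / 4200)) :=
          mul_le_mul_of_nonneg_left e3 hC.le
      _ = 16 * C * T ^ ((4199 : ℝ) / 4200) := by ring
      _ ≤ ε * T := hpow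
  · intro z hz
    rw [Finset.mem_product] at hz
    obtain ⟨a1, a2⟩ := IX_ne hz.1
    obtain ⟨b1, b2⟩ := IX_ne hz.2
    have hpos : ∀ n : ℕ, n ≠ 0 → 1 ≤ n := fun n hn => Nat.one_le_iff_ne_zero.2 hn
    refine ⟨hpos _ (mul_ne_zero a1 b2), hpos _ (mul_ne_zero a2 b1), ?_⟩
    have h1 := NB_le hT (mem_IX.1 hz.1).2.1
    have h2 := NA_le hT (mem_IX.1 hz.2).1
    have h3 : ((min (z.1.1 * z.2.2) (z.1.2 * z.2.1) : ℕ) : ℝ) ≤ ((z.1.2 * z.2.1 : ℕ) : ℝ) := by
      exact_mod_cast min_le_right _ _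
    refine h3.trans ?_
    rw [Nat.cast_mul]
    calc (z.1.2 : ℝ) * z.2.1 ≤ T ^ ((2099 : ℝ) / 4200) * T ^ ((1 : ℝ) / 2) :=
          mul_le_mul h1 h2 (Nat.cast_nonneg _) (Real.rpow_nonneg hT0.le _)
      _ = T ^ ((1 : ℝ) - 1 / 4200) := by
          rw [← Real.rpow_add hT0]
          norm_num

end Pool.Agent.Helper69.PQ.SI
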