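import Pool.Agent.Helper22.SI.Main

/-!
# SI: from close zeros to close successors in `[x, x + x^b]`
-/

open MeasureTheory Set Filter Topology
open Pool.Agent.Helper57.Zeta Pool.Agent.Helper57.PC Pool.Agent.Helper57.LH Pool.Agent.Helper78.SG
open Pool.Agent.Helper4.SH

namespace Pool.Agent.Helper22.SI

open Pool.Agent.Helper69.SM (CloseC ZJ mem_ZJ)
open Pool.Agent.Helper69.SM.SI (CW CZJ mem_CZJ)
open Pool.Agent.Helper69.PP (CloseUpC)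

open Classical in
/-- the zeros of `[x, x + H]` with a close successor -/
noncomputable def UZ (c x H : ℝ) : Finset ZS := (ZT (x + H)).filter (fun ρ => x ≤ (ρ : ℂ).im ∧ CloseUpC c x ρ)

theorem mem_UZ {c x H : ℝ} (hx : 0 ≤ x) {ρ : ZS} :
    ρ ∈ UZ c x H ↔ x ≤ (ρ : ℂ).im ∧ (ρ : ℂ).im ≤ x + H ∧ CloseUpC c x ρ := by
  classical
  unfold UZ
  rw [Finset.mem_filter, mem_ZT]
  constructor
  · exact fun h => ⟨h.2.1, h.1.2, h.2.2⟩
  · exact fun h => ⟨⟨hx.trans h.1, h.2.1⟩, h.1, h.2.2⟩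

theorem one_side_si {b c d : ℝ} (hb : 0 < b) (hc : 0 < c) (hc1 : c < 1) (hd : 0 < d) {p : ℝ}
    (h : ∀ᶠ x : ℝ in atTop, p * (x ^ b * Real.log x) ≤ CW c d x (x ^ b)) :
    ∀ᶠ x : ℝ in atTop, p / 2 * (x ^ b * Real.log x) ≤
      ∑ ρ ∈ UZ c x (x ^ b), mx ρ * x ^ (d * |(ρ : ℂ).re - 1 / 2|) := by
  classical
  have h1 : ∀ᶠ x : ℝ in atTop, 2 * Real.pi * c ≤ Real.log x := Real.tendsto_log_atTop.eventually_ge_atTop _
  have h2 : ∀ᶠ x : ℝ in atTop, (8 : ℝ) ≤ x ^ b := (tendsto_rpow_atTop hb).eventually_ge_atTop _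
  filter_upwards [h, h1, h2, eventually_gt_atTop 1] with x hx hx1 hx2 hx3
  have hx0 : 0 < x := by linarith
  have hlog : 0 < Real.log x := Real.log_pos hx3
  have hpi : 0 < 2 * Real.pi := by positivity
  have hH0 : 0 ≤ x ^ b := by linarith
  obtain ⟨H, hH⟩ : ∃ H : ℝ, H = x ^ b := ⟨_, rfl⟩
  rw [← hH] at hx hx2 hH0 ⊢
  unfold CW at hx
  obtain ⟨w, hw⟩ : ∃ w : ZS → ℝ, w = fun ρ : ZS => mx ρ * x ^ (d * |(ρ : ℂ).re - 1 / 2|) := ⟨_, rfl⟩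
  have hw0 : ∀ ρ, 0 ≤ w ρ := fun ρ => by
    rw [hw]
    exact mul_nonneg (mx_nonneg _) (Real.rpow_nonneg hx0.le _)
  have hw1 : ∀ ρ, 1 ≤ w ρ := fun ρ => by
    rw [hw]
    exact one_le_mul_of_one_le_of_one_le (mx_one_le ρ) (Real.one_le_rpow hx3.le (by positivity))
  have hwe : ∀ S : Finset ZS, ∑ ρ ∈ S, mx ρ * x ^ (d * |(ρ : ℂ).re - 1 / 2|) = ∑ ρ ∈ S, w ρ := fun S => by rw [hw]
  rw [hwe] at hx ⊢
  set A := CZJ c x H with hA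
  set B := A.filter (fun ρ => ¬ CloseUpC c x ρ) with hB
  have hAm : ∀ ρ ∈ A, (x + H / 8 ≤ (ρ : ℂ).im ∧ (ρ : ℂ).im ≤ x + 7 * H / 8) ∧ CloseC c x ρ := by
    intro ρ hρ
    obtain ⟨h3, h4⟩ := mem_CZJ.mp hρ
    exact ⟨(mem_ZJ hx0.le hH0).mp h3, h4⟩
  have hsplit : ∑ ρ ∈ A, w ρ = ∑ ρ ∈ A.filter (CloseUpC c x), w ρ + ∑ ρ ∈ B, w ρ := by
    rw [hB, Finset.sum_filter_add_sum_filter_not]
  have hAp : ∑ ρ ∈ A.filter (CloseUpC c x), w ρ ≤ ∑ ρ ∈ UZ c x H, w ρ := by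
    refine Finset.sum_le_sum_of_subset_of_nonneg ?_ (fun ρ _ _ => hw0 ρ)
    intro ρ hρ
    obtain ⟨h3, h4⟩ := Finset.mem_filter.mp hρ
    obtain ⟨⟨h5, h6⟩, _⟩ := hAm ρ h3
    rw [mem_UZ hx0.le]
    exact ⟨by linarith, by linarith, h4⟩
  -- the neighbour below
  have hex : ∀ ρ ∈ B, ∃ ρ' : ZS, ρ' ≠ ρ ∧ (ρ' : ℂ).im < (ρ : ℂ).im ∧
      ((ρ : ℂ).im - (ρ' : ℂ).im) * Real.log x / (2 * Real.pi) ≤ c := by
    intro ρ hρ
    obtain ⟨h3, h4⟩ := Finset.mem_filter.mp hρ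
    rcases (hAm ρ h3).2 with h3 | ⟨ρ', h5, h6⟩
    · exact absurd (Or.inl h3) h4
    · refine ⟨ρ', h5, ?_, ?_⟩
      · by_contra hcon
        rw [not_lt] at hcon
        apply h4
        refine Or.inr ⟨ρ', h5, sub_nonneg.2 hcon, ?_⟩
        rwa [abs_sub_comm, abs_of_nonneg (sub_nonneg.2 hcon)] at h6
      · refine le_trans ?_ h6
        have := le_abs_self ((ρ : ℂ).im - (ρ' : ℂ).im)
        gcongr
  choose! P hP1 hP2 hP3 using hex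
  have hwB : ∀ ρ ∈ B, w ρ = 1 := by
    intro ρ hρ
    obtain ⟨_, h4⟩ := Finset.mem_filter.mp hρ
    have h5 : ¬ (2 ≤ analyticOrderNatAt xi (ρ : ℂ)) := fun h5 => h4 (Or.inl h5)
    have h6 : (ρ : ℂ).re = 1 / 2 := by
      by_contra hre
      have hne : Pool.Agent.Helper57.LH.refl ρ ≠ ρ := by
        intro he
        have h7 := refl_re ρ
        rw [he] at h7
        exact hre (by linarith)
      apply h4
      refine Or.inr ⟨Pool.Agent.Helper57.LH.refl ρ, hne, ?_, ?_⟩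
      · rw [refl_im, sub_self]
      · rw [refl_im, sub_self, zero_mul, zero_div]
        exact hc.le
    have h7 : mx ρ = 1 := by
      have h8 := mx_one_le ρ
      unfold mx at h8 ⊢
      have h9 : 1 ≤ analyticOrderNatAt xi (ρ : ℂ) := by exact_mod_cast h8
      have h10 : analyticOrderNatAt xi (ρ : ℂ) = 1 := by omega
      rw [h10]
      norm_num
    rw [hw]
    show mx ρ * x ^ (d * |(ρ : ℂ).re - 1 / 2|) = 1
    rw [h7, h6, sub_self, abs_zero, mul_zero, Real.rpow_zero, one_mul]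
  have hinj : Set.InjOn P (B : Set ZS) := by
    have key : ∀ ρ₁ ∈ B, ∀ ρ₂ ∈ B, P ρ₁ = P ρ₂ → ρ₁ ≠ ρ₂ → (ρ₁ : ℂ).im ≤ (ρ₂ : ℂ).im → False := by
      intro ρ₁ h3 ρ₂ h4 h5 h6 h7
      have h8 : ¬ CloseUpC c x ρ₁ := (Finset.mem_filter.mp h3).2
      apply h8
      refine Or.inr ⟨ρ₂, h6.symm, sub_nonneg.2 h7, ?_⟩
      refine le_trans ?_ (hP3 ρ₂ h4)
      have h9 := hP2 ρ₁ h3
      rw [h5] at h9
      have : (ρ₂ : ℂ).im - (ρ₁ : ℂ).im ≤ (ρ₂ : ℂ).im - (P ρ₂ : ℂ).im := by linarith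
      gcongr
    intro ρ₁ h3 ρ₂ h4 h5
    by_contra h6
    rcases le_total (ρ₁ : ℂ).im (ρ₂ : ℂ).im with h7 | h7
    · exact key ρ₁ h3 ρ₂ h4 h5 h6 h7
    · exact key ρ₂ h4 ρ₁ h3 h5.symm (fun h => h6 h.symm) h7
  have hmap : ∀ ρ ∈ B, P ρ ∈ UZ c x H := by
    intro ρ hρ
    obtain ⟨⟨h5, h6⟩, _⟩ := hAm ρ (Finset.mem_filter.mp hρ).1
    have h7 := hP3 ρ hρ
    have h8 := hP2 ρ hρ
    rw [mem_UZ hx0.le]
    refine ⟨?_, by linarith, Or.inr ⟨ρ, (hP1 ρ hρ).symm, by linarith, h7⟩⟩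
    rw [div_le_iff₀ hpi] at h7
    have h9 : ((ρ : ℂ).im - (P ρ : ℂ).im) * Real.log x ≤ 1 * Real.log x := by linarith
    have h10 := le_of_mul_le_mul_right h9 hlog
    linarith
  have hBle : ∑ ρ ∈ B, w ρ ≤ ∑ ρ ∈ UZ c x H, w ρ := by
    calc ∑ ρ ∈ B, w ρ = ∑ ρ ∈ B, (1 : ℝ) := Finset.sum_congr rfl hwB
      _ ≤ ∑ ρ ∈ B, w (P ρ) := Finset.sum_le_sum fun ρ _ => hw1 _
      _ = ∑ ρ ∈ B.image P, w ρ := (Finset.sum_image hinj).symm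
      _ ≤ ∑ ρ ∈ UZ c x H, w ρ := by
          refine Finset.sum_le_sum_of_subset_of_nonneg ?_ (fun ρ _ _ => hw0 ρ)
          intro ρ hρ
          obtain ⟨r, hr, rfl⟩ := Finset.mem_image.mp hρ
          exact hmap r hr
  linarith

/-- close successors in every short interval -/
theorem short_close {b d : ℝ} (hb : 0 < b) (hb1 : b ≤ 1) (hd : 0 < d) : ∃ κ : ℝ, 0 < κ ∧ ∀ᶠ x : ℝ in atTop,
    κ * (x ^ b * Real.log x) ≤
      ∑ ρ ∈ UZ (103 / (103 + 97 * b)) x (x ^ b), mx ρ * x ^ (d * |(ρ : ℂ).re - 1 / 2|) := by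
  have h0 : 0 < 103 + 97 * b := by linarith
  have hc : 0 < 103 / (103 + 97 * b) := by positivity
  have hc1 : 103 / (103 + 97 * b) < 1 := by rw [div_lt_one h0]; linarith
  have e : 103 / (103 + 97 * b) * (103 + 97 * b) = 103 := div_mul_cancel₀ _ h0.ne'
  obtain ⟨p, hp, h⟩ := Pool.Agent.Helper69.PQ.SI.main_si hb hb1 hc hc1 e.ge (by
    rw [div_mul_eq_mul_div, div_le_div_iff₀ h0 (by norm_num)]
    linarith) hd
  exact ⟨p / 2, by positivity, one_side_si hb hc hc1 hd h⟩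

end Pool.Agent.Helper22.SI
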