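import Pool.Agent.Helper4.SH.Mom
import Pool.Agent.Helper69.SM.MV

/-!
# SI-MO: moments with a smooth weight over `[x, x + T]`, uniformly in `x`
-/

open MeasureTheory Set Filter Topology
open Pool.Agent.Helper57.Zeta Pool.Agent.Helper57.PC Pool.Agent.Helper57.LH Pool.Agent.Helper78.SG
open Pool.Agent.Helper4.SH Pool.Agent.Helper69.SM
open scoped ContDiff

namespace Pool.Agent.Helper22.SI

theorem momS (g : TF) (j d : ℕ) (K δ θ : ℝ) (hK : 0 ≤ K) (hδ : 0 < δ) (hθ : j * θ ≤ 1 - δ) :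
    ∃ C : ℝ, 0 < C ∧ ∀ᶠ T : ℝ in atTop, ∀ x : ℝ,
    ∀ (ι : Type) [DecidableEq ι] (S : Finset ι) (c : ι → ℝ) (a b : ι → ℕ),
      (∀ i ∈ S, a i ≠ 0 ∧ b i ≠ 0 ∧ (a i).primeFactorsList.length + (b i).primeFactorsList.length ≤ d ∧
        (∀ p ∈ (a i).primeFactorsList, p ∈ PP T) ∧ (∀ p ∈ (b i).primeFactorsList, p ∈ PP T) ∧
        |c i| ≤ K * (WW T (a i) * WW T (b i)) ∧ (a i : ℝ) * b i ≤ T ^ θ) →
      (∀ i ∈ S, ∀ i' ∈ S, a i = a i' → b i = b i' → i = i') → (S.card : ℝ) ≤ T ^ 3 →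
      |∫ t, wt g.h x T t * (∑ i ∈ S, ∑ i' ∈ S, c i * c i' * Real.cos (t * ((Real.log (a i) - Real.log (b i)) -
        (Real.log (a i') - Real.log (b i'))))) ^ j| ≤ C * T := by
  obtain ⟨Cd, hCd0, hCd⟩ := mom_diag j d K hK
  obtain ⟨k, hk⟩ := exists_nat_ge (6 * (j : ℝ) / δ)
  have hk' : 6 * (j : ℝ) ≤ δ * k := by
    rw [div_le_iff₀ hδ] at hk
    linarith
  obtain ⟨Cg, hCg0, hCg⟩ := gmvS g hδ k
  refine ⟨|∫ y, g.h y| * Cd + Cg * (K ^ j * K ^ j) + 1, by positivity, ?_⟩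
  filter_upwards [ww_sq_le, eventually_gt_atTop 1] with T hw hT x ι _ S c a b hS hinj hcard
  have hT0 : 0 < T := by linarith
  set P : Finset (Fin j → ι) := Fintype.piFinset (fun _ : Fin j => S) with hP
  have hexp : ∀ t : ℝ, wt g.h x T t * (∑ i ∈ S, ∑ i' ∈ S, c i * c i' * Real.cos (t *
      ((Real.log (a i) - Real.log (b i)) - (Real.log (a i') - Real.log (b i'))))) ^ j =
      wt g.h x T t * ∑ Z ∈ P ×ˢ P,
      ((∏ k, c (Z.1 k)) * (∏ k, c (Z.2 k))) * Real.cos (t *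
        (Real.log (((∏ k, a (Z.1 k)) * (∏ k, b (Z.2 k)) : ℕ) : ℝ) -
          Real.log (((∏ k, b (Z.1 k)) * (∏ k, a (Z.2 k)) : ℕ) : ℝ))) := by
    intro t
    rw [mom_expand S c a b (fun i hi => ⟨(hS i hi).1, (hS i hi).2.1⟩) j t]
  have hint := integral_congr_ae (Filter.Eventually.of_forall hexp) (μ := volume)
  rw [hint]
  have hmem : ∀ Z ∈ P ×ˢ P, (∀ k, Z.1 k ∈ S) ∧ ∀ k, Z.2 k ∈ S := by
    intro Z hZ
    rw [Finset.mem_product] at hZ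
    exact ⟨fun k => (Fintype.mem_piFinset.mp hZ.1) k, fun k => (Fintype.mem_piFinset.mp hZ.2) k⟩
  have h1 := hCg x T hT.le ((Fin j → ι) × (Fin j → ι)) (P ×ˢ P)
    (fun Z => (∏ k, c (Z.1 k)) * (∏ k, c (Z.2 k)))
    (fun Z => (∏ k, a (Z.1 k)) * (∏ k, b (Z.2 k)))
    (fun Z => (∏ k, b (Z.1 k)) * (∏ k, a (Z.2 k))) (by
      intro Z hZ
      obtain ⟨hX, hY⟩ := hmem Z hZ
      refine ⟨?_, ?_, mom_min S a b hT j hθ (fun i hi => (hS i hi).2.2.2.2.2.2) Z.1 Z.2 hX hY⟩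
      · refine Nat.one_le_iff_ne_zero.mpr (mul_ne_zero ?_ ?_)
        · exact Finset.prod_ne_zero_iff.mpr fun k _ => (hS _ (hX k)).1
        · exact Finset.prod_ne_zero_iff.mpr fun k _ => (hS _ (hY k)).2.1
      · refine Nat.one_le_iff_ne_zero.mpr (mul_ne_zero ?_ ?_)
        · exact Finset.prod_ne_zero_iff.mpr fun k _ => (hS _ (hX k)).2.1
        · exact Finset.prod_ne_zero_iff.mpr fun k _ => (hS _ (hY k)).1)
  -- diagonal
  have h2 := hCd T hT hw ι S c a b (fun i hi => ⟨(hS i hi).1, (hS i hi).2.1, (hS i hi).2.2.1,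
    (hS i hi).2.2.2.1, (hS i hi).2.2.2.2.1, (hS i hi).2.2.2.2.2.1⟩) hinj
  have h3 : |∑ Z ∈ P ×ˢ P, (if (∏ k, a (Z.1 k)) * (∏ k, b (Z.2 k)) =
      (∏ k, b (Z.1 k)) * (∏ k, a (Z.2 k)) then (∏ k, c (Z.1 k)) * (∏ k, c (Z.2 k)) else 0)| ≤
      Cd := by
    refine (Finset.abs_sum_le_sum_abs _ _).trans (le_trans (le_of_eq ?_) h2)
    rw [Finset.sum_product]
    refine Finset.sum_congr rfl fun X _ => Finset.sum_congr rfl fun Y _ => ?_
    by_cases hc : (∏ k, a (X k)) * (∏ k, b (Y k)) = (∏ k, b (X k)) * (∏ k, a (Y k))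
    · simp only [hc, if_true]
      rw [abs_mul, Finset.abs_prod, Finset.abs_prod]
    · simp only [hc, if_false, abs_zero]
  -- the coefficients
  have hc1 : ∀ i ∈ S, |c i| ≤ K := by
    intro i hi
    obtain ⟨_, _, _, q1, q2, q3, _⟩ := hS i hi
    have w1 := WW_le_one hT (a i) q1
    have w2 := WW_le_one hT (b i) q2
    have w3 := WW_nonneg hT (a i)
    have w4 := WW_nonneg hT (b i)
    calc |c i| ≤ K * (WW T (a i) * WW T (b i)) := q3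
      _ ≤ K * 1 := mul_le_mul_of_nonneg_left (mul_le_one₀ w1 w4 w2) hK
      _ = K := mul_one K
  have hc2 : ∀ Z : Fin j → ι, (∀ k, Z k ∈ S) → |∏ k, c (Z k)| ≤ K ^ j := by
    intro Z hZ
    rw [Finset.abs_prod]
    calc ∏ k, |c (Z k)| ≤ ∏ _k : Fin j, K :=
          Finset.prod_le_prod (fun k _ => abs_nonneg _) fun k _ => hc1 _ (hZ k)
      _ = K ^ j := by rw [Finset.prod_const, Finset.card_univ, Fintype.card_fin]
  have h4 : ∑ Z ∈ P ×ˢ P, |(∏ k, c (Z.1 k)) * (∏ k, c (Z.2 k))| ≤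
      (K ^ j * K ^ j) * T ^ (6 * j) := by
    calc ∑ Z ∈ P ×ˢ P, |(∏ k, c (Z.1 k)) * (∏ k, c (Z.2 k))| ≤
          ∑ _Z ∈ P ×ˢ P, K ^ j * K ^ j := by
          refine Finset.sum_le_sum fun Z hZ => ?_
          obtain ⟨hX, hY⟩ := hmem Z hZ
          rw [abs_mul]
          exact mul_le_mul (hc2 _ hX) (hc2 _ hY) (abs_nonneg _) (by positivity)
      _ = ((S.card : ℝ) ^ j * (S.card : ℝ) ^ j) * (K ^ j * K ^ j) := by
          rw [Finset.sum_const, Finset.card_product, nsmul_eq_mul, hP, Fintype.card_piFinset]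
          simp
      _ ≤ ((T ^ 3) ^ j * (T ^ 3) ^ j) * (K ^ j * K ^ j) := by
          refine mul_le_mul_of_nonneg_right ?_ (by positivity)
          have := pow_le_pow_left₀ (Nat.cast_nonneg S.card) hcard j
          exact mul_le_mul this this (by positivity) (by positivity)
      _ = (K ^ j * K ^ j) * T ^ (6 * j) := by
          rw [← pow_mul, ← pow_add, mul_comm]
          congr 2
          ring
  have h5 : T ^ (1 - δ * k) * T ^ (6 * j) ≤ T := by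
    rw [← Real.rpow_natCast, ← Real.rpow_add hT0]
    calc T ^ (1 - δ * k + ((6 * j : ℕ) : ℝ)) ≤ T ^ (1 : ℝ) := by
          refine Real.rpow_le_rpow_of_exponent_le hT.le ?_
          push_cast
          linarith
      _ = T := Real.rpow_one T
  have h6 : Cg * T ^ (1 - δ * k) * ∑ Z ∈ P ×ˢ P, |(∏ k, c (Z.1 k)) * (∏ k, c (Z.2 k))| ≤
      Cg * (K ^ j * K ^ j) * T := by
    calc Cg * T ^ (1 - δ * k) * ∑ Z ∈ P ×ˢ P, |(∏ k, c (Z.1 k)) * (∏ k, c (Z.2 k))| ≤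
          Cg * T ^ (1 - δ * k) * ((K ^ j * K ^ j) * T ^ (6 * j)) :=
          mul_le_mul_of_nonneg_left h4 (by positivity)
      _ = Cg * (K ^ j * K ^ j) * (T ^ (1 - δ * k) * T ^ (6 * j)) := by ring
      _ ≤ Cg * (K ^ j * K ^ j) * T := mul_le_mul_of_nonneg_left h5 (by positivity)
  have h7 : |T * (∫ y, g.h y) * ∑ Z ∈ P ×ˢ P, (if (∏ k, a (Z.1 k)) * (∏ k, b (Z.2 k)) =
      (∏ k, b (Z.1 k)) * (∏ k, a (Z.2 k)) then (∏ k, c (Z.1 k)) * (∏ k, c (Z.2 k)) else 0)| ≤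
      |∫ y, g.h y| * Cd * T := by
    rw [abs_mul, abs_mul, abs_of_pos hT0]
    calc T * |∫ y, g.h y| * |∑ Z ∈ P ×ˢ P, (if (∏ k, a (Z.1 k)) * (∏ k, b (Z.2 k)) =
          (∏ k, b (Z.1 k)) * (∏ k, a (Z.2 k)) then (∏ k, c (Z.1 k)) * (∏ k, c (Z.2 k)) else 0)| ≤
          T * |∫ y, g.h y| * Cd := mul_le_mul_of_nonneg_left h3 (by positivity)
      _ = |∫ y, g.h y| * Cd * T := by ring
  have h8 := abs_sub_abs_le_abs_sub (∫ t, wt g.h x T t * ∑ Z ∈ P ×ˢ P,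
      ((∏ k, c (Z.1 k)) * (∏ k, c (Z.2 k))) * Real.cos (t *
        (Real.log (((∏ k, a (Z.1 k)) * (∏ k, b (Z.2 k)) : ℕ) : ℝ) -
          Real.log (((∏ k, b (Z.1 k)) * (∏ k, a (Z.2 k)) : ℕ) : ℝ))))
      (T * (∫ y, g.h y) * ∑ Z ∈ P ×ˢ P, (if (∏ k, a (Z.1 k)) * (∏ k, b (Z.2 k)) =
      (∏ k, b (Z.1 k)) * (∏ k, a (Z.2 k)) then (∏ k, c (Z.1 k)) * (∏ k, c (Z.2 k)) else 0))
  have h9 := h8.trans (h1.trans h6)
  nlinarith
end Pool.Agent.Helper22.SI
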