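import Pool.Agent.Helper22.SI.M2S
import Pool.Agent.Helper22.SI.WtI
import Pool.Agent.Helper69.PQ.M3

/-!
# SI: M4.lean of Helper69/PQ with the weight `wt g x T t` of the interval `[x, x + T]` instead of `om g T t`, uniformly in `x`

Adapted from Helper69/PQ/M4.lean; the mean value theorem `gmv` is replaced by `gmvS` (Helper69/SM/MV), which is uniform in `x`.
-/

open MeasureTheory Set Filter Topology
open Pool.Agent.Helper57.Zeta Pool.Agent.Helper57.PC Pool.Agent.Helper57.LH Pool.Agent.Helper78.SG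
open Pool.Agent.Helper4.SH Pool.Agent.Helper69.PP Pool.Agent.Helper22.SI
open Pool.Agent.Helper69.SM (wt gmvS wt_cont)

namespace Pool.Agent.Helper69.PQ.SI

private theorem Rl_cont53 (P : Par) (T : ℝ) (l : ℕ) : Continuous (fun t => Rl P T t l) := by
  unfold Rl Pl
  exact continuous_const.add (DP_cont _ _).norm

private theorem prod_cont53 (P : Par) (T : ℝ) (s : List ℕ) : Continuous (fun t => (s.map (Rl P T t)).prod) := by
  induction s with
  | nil => simpa using continuous_const
  | cons l s ih =>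
    simp only [List.map_cons, List.prod_cons]
    exact (Rl_cont53 P T l).mul ih

/-- mean square of a product of factors `R_l = 1 + |P_l|` and an admissible polynomial: expand the product over sublists,
`(∑ of 2^n terms)² ≤ 2^n ∑ squares` -/
theorem R_sqS (P : Par) (g : TF) (hg : g.th = 1 / 4) (hg0 : ∀ x, 0 ≤ g.h x) (s : List ℕ) (K : ℝ) (hK : 0 ≤ K) (d : ℕ) {θ e1 : ℝ}
    (he1 : 0 < e1) (hs : (s.sum : ℝ) / P.G + θ ≤ 1 - e1) :
    ∃ C : ℝ, 0 < C ∧ ∀ᶠ T : ℝ in atTop, ∀ (x : ℝ) (S : Finset ℕ) (c : ℕ → ℝ), Adm K d θ T S c →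
      ∫ t, wt g.h x T t * ((s.map (Rl P T t)).prod * ‖DP S c t‖) ^ 2 ≤ C * T := by
  induction s generalizing K d θ with
  | nil =>
    obtain ⟨C, hC, hev⟩ := adm_sqS g hg0 K hK d he1 (θ := θ) (by simpa using hs)
    refine ⟨C, hC, ?_⟩
    filter_upwards [hev] with T hT x S c hA
    simpa using hT x S c hA
  | cons l s ih =>
    have hG : (0:ℝ) < P.G := by exact_mod_cast P.hG0
    have hsum : (((l :: s).sum : ℕ) : ℝ) / P.G = (l : ℝ) / P.G + (s.sum : ℝ) / P.G := by
      rw [List.sum_cons]; push_cast; ring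
    rw [hsum] at hs
    have hl : 0 ≤ (l : ℝ) / P.G := by positivity
    obtain ⟨K', d', hK', hlist⟩ := adm_list P K hK d θ [l]
    obtain ⟨C1, hC1, hev1⟩ := ih K hK d (θ := θ) (by linarith)
    obtain ⟨C2, hC2, hev2⟩ := ih K' hK' d' (θ := (([l] : List ℕ).sum : ℝ) / P.G + θ) (by
      have : ((([l] : List ℕ).sum : ℕ) : ℝ) = l := by simp
      rw [this]; linarith)
    refine ⟨2 * C1 + 2 * C2, by positivity, ?_⟩
    filter_upwards [hev1, hev2, eventually_gt_atTop 1] with T h1 h2 hT x S c hA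
    have hT0 : 0 < T := by linarith
    obtain ⟨S', c', hA', hDP⟩ := hlist T hT S c hA
    have e1 := h1 x S c hA
    have e2 := h2 x S' c' hA'
    have hc1 : Continuous (fun t => ((s.map (Rl P T t)).prod * ‖DP S c t‖) ^ 2) :=
      ((prod_cont53 P T s).mul (DP_cont S c).norm).pow 2
    have hc2 : Continuous (fun t => ((s.map (Rl P T t)).prod * ‖DP S' c' t‖) ^ 2) :=
      ((prod_cont53 P T s).mul (DP_cont S' c').norm).pow 2
    have hc3 : Continuous (fun t => (((l :: s).map (Rl P T t)).prod * ‖DP S c t‖) ^ 2) :=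
      ((prod_cont53 P T (l :: s)).mul (DP_cont S c).norm).pow 2
    have i1 := wtI g x hT0 hc1
    have i2 := wtI g x hT0 hc2
    have i3 := wtI g x hT0 hc3
    calc ∫ t, wt g.h x T t * (((l :: s).map (Rl P T t)).prod * ‖DP S c t‖) ^ 2
        ≤ ∫ t, (2 * (wt g.h x T t * ((s.map (Rl P T t)).prod * ‖DP S c t‖) ^ 2) +
            2 * (wt g.h x T t * ((s.map (Rl P T t)).prod * ‖DP S' c' t‖) ^ 2)) := by
          apply integral_mono i3 ((i1.const_mul 2).add (i2.const_mul 2))
          intro t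
          have hom : 0 ≤ wt g.h x T t := hg0 _
          have hd := hDP t
          simp only [List.map_cons, List.map_nil, List.prod_cons, List.prod_nil, mul_one] at hd
          show wt g.h x T t * (((l :: s).map (Rl P T t)).prod * ‖DP S c t‖) ^ 2 ≤
            2 * (wt g.h x T t * ((s.map (Rl P T t)).prod * ‖DP S c t‖) ^ 2) +
            2 * (wt g.h x T t * ((s.map (Rl P T t)).prod * ‖DP S' c' t‖) ^ 2)
          rw [hd]
          simp only [List.map_cons, List.prod_cons]
          unfold Rl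
          set u := ‖Pl P l T t‖
          set A := (s.map (fun l => 1 + ‖Pl P l T t‖)).prod * ‖DP S c t‖ with hA
          have h4 : ((1 + u) * (s.map (fun l => 1 + ‖Pl P l T t‖)).prod * ‖DP S c t‖) ^ 2 =
              (1 + u) ^ 2 * A ^ 2 := by rw [hA]; ring
          have h5 : ((s.map (fun l => 1 + ‖Pl P l T t‖)).prod * (u * ‖DP S c t‖)) ^ 2 = u ^ 2 * A ^ 2 := by
            rw [hA]; ring
          rw [h4, h5]
          have h6 : (1 + u) ^ 2 * A ^ 2 ≤ 2 * A ^ 2 + 2 * (u ^ 2 * A ^ 2) := by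
            nlinarith [mul_nonneg (sq_nonneg (1 - u)) (sq_nonneg A)]
          nlinarith [mul_le_mul_of_nonneg_left h6 hom]
      _ = 2 * (∫ t, wt g.h x T t * ((s.map (Rl P T t)).prod * ‖DP S c t‖) ^ 2) +
            2 * ∫ t, wt g.h x T t * ((s.map (Rl P T t)).prod * ‖DP S' c' t‖) ^ 2 := by
          rw [integral_add (i1.const_mul 2) (i2.const_mul 2), integral_const_mul, integral_const_mul]
      _ ≤ 2 * (C1 * T) + 2 * (C2 * T) := by gcongr
      _ = (2 * C1 + 2 * C2) * T := by ring

private theorem rep_prod53 (f : ℕ → ℝ) (l : List ℕ) (j : ℕ) :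
    (((List.replicate j l).flatten).map f).prod = ((l.map f).prod) ^ j := by
  induction j with
  | zero => simp
  | succ j ih => rw [List.replicate_succ, List.flatten_cons, List.map_append, List.prod_append, ih, pow_succ']

private theorem rep_sum53 (l : List ℕ) (j : ℕ) : ((List.replicate j l).flatten).sum = j * l.sum := by
  induction j with
  | zero => simp
  | succ j ih => rw [List.replicate_succ, List.flatten_cons, List.sum_append, ih]; ring

/-- the `2j`-th moment of the product over a type -/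
theorem R_momS (P : Par) (g : TF) (hg : g.th = 1 / 4) (hg0 : ∀ x, 0 ≤ g.h x) (σ : Finset ℕ) (j : ℕ) {e1 : ℝ} (he1 : 0 < e1)
    (hs : (j : ℝ) * US σ / P.G ≤ 1 - e1) :
    ∃ C : ℝ, 0 < C ∧ ∀ᶠ T : ℝ in atTop, ∀ x : ℝ, ∫ t, wt g.h x T t * (∏ l ∈ σ, Rl P T t l) ^ (2 * j) ≤ C * T := by
  obtain ⟨C, hC, hev⟩ := R_sqS P g hg hg0 ((List.replicate j σ.toList).flatten) 1 zero_le_one 0
    (θ := 0) he1 (by
      rw [rep_sum53, Finset.sum_toList]
      unfold US at hs
      push_cast at hs ⊢
      linarith)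
  refine ⟨C, hC, ?_⟩
  filter_upwards [hev, eventually_gt_atTop 1] with T hT hT1 x
  have h := hT x {1} (fun _ => 1) (adm_one hT1)
  have e : ∀ t, (((List.replicate j σ.toList).flatten.map (Rl P T t)).prod * ‖DP {1} (fun _ => 1) t‖) ^ 2 =
      (∏ l ∈ σ, Rl P T t l) ^ (2 * j) := by
    intro t
    rw [DP_one, norm_one, mul_one, rep_prod53, Finset.prod_map_toList, ← pow_mul, mul_comm j 2]
  simp only [e] at h
  exact h

/-- the mean square of the product over a type with multiplicities -/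
theorem R_multS (P : Par) (g : TF) (hg : g.th = 1 / 4) (hg0 : ∀ x, 0 ≤ g.h x) (σ : Finset ℕ) (f : ℕ → ℕ) {e1 : ℝ} (he1 : 0 < e1)
    (hs : ((∑ l ∈ σ, f l * l : ℕ) : ℝ) / P.G ≤ 1 - e1) :
    ∃ C : ℝ, 0 < C ∧ ∀ᶠ T : ℝ in atTop, ∀ x : ℝ, ∫ t, wt g.h x T t * (∏ l ∈ σ, Rl P T t l ^ f l) ^ 2 ≤ C * T := by
  have hsum : (σ.toList.flatMap (fun l => List.replicate (f l) l)).sum = ∑ l ∈ σ, f l * l := by
    rw [← Finset.sum_map_toList]
    induction σ.toList with
    | nil => simp
    | cons l s ih =>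
      rw [List.flatMap_cons, List.sum_append, ih, List.map_cons, List.sum_cons, List.sum_replicate, smul_eq_mul]
  obtain ⟨C, hC, hev⟩ := R_sqS P g hg hg0 (σ.toList.flatMap (fun l => List.replicate (f l) l)) 1 zero_le_one 0
    (θ := 0) he1 (by
      rw [hsum]
      linarith)
  refine ⟨C, hC, ?_⟩
  filter_upwards [hev, eventually_gt_atTop 1] with T hT hT1 x
  have h := hT x {1} (fun _ => 1) (adm_one hT1)
  have e : ∀ t, (((σ.toList.flatMap (fun l => List.replicate (f l) l)).map (Rl P T t)).prod *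
      ‖DP {1} (fun _ => 1) t‖) ^ 2 = (∏ l ∈ σ, Rl P T t l ^ f l) ^ 2 := by
    intro t
    rw [DP_one, norm_one, mul_one, ← Finset.prod_map_toList]
    congr 1
    induction σ.toList with
    | nil => simp
    | cons l s ih =>
      rw [List.flatMap_cons, List.map_append, List.prod_append, ih, List.map_cons, List.prod_cons, List.map_replicate,
        List.prod_replicate]
  simp only [e] at h
  exact h

end Pool.Agent.Helper69.PQ.SI
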