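import Pool.Agent.Helper4.SH.Scale
import Pool.Agent.Helper4.SH.PPow
import Pool.Agent.Helper22.SI.Defs

/-!
# SI: change of scale of the kernel

`X = x^b`. The kernel `scl f b` at the height `x` has the same prime sum and the same window function as `f` at the height `X`.
-/

open MeasureTheory Set Filter Topology
open Pool.Agent.Helper57.Zeta Pool.Agent.Helper57.PC Pool.Agent.Helper57.LH Pool.Agent.Helper78.SG
open Pool.Agent.Helper4.SH
open scoped ContDiff

namespace Pool.Agent.Helper22.SI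

/-- the kernel `f` in the scale `b` -/
noncomputable def scl (f : TF) (b : ℝ) (hb : 0 < b) (hb1 : b ≤ 1) : TF where
  h := fun z => 1 / b * f.h (z / b)
  th := b * f.th
  smooth := contDiff_const.mul (f.smooth.comp (contDiff_id.div_const b))
  even := fun z => by rw [neg_div, f.even]
  th0 := mul_pos hb f.th0
  th1 := by nlinarith [f.th0, f.th1]
  supp := fun z hz => by
    rw [f.supp, mul_zero]
    rw [abs_div, abs_of_pos hb, le_div_iff₀ hb]
    linarith

theorem scl_zero (f : TF) {b : ℝ} (hb : 0 < b) (hb1 : b ≤ 1) : (scl f b hb hb1).h 0 = f.h 0 / b := by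
  show 1 / b * f.h (0 / b) = _
  rw [zero_div]
  ring

theorem scl_krs (f : TF) {b : ℝ} (hb : 0 < b) (hb1 : b ≤ 1) (s : ℝ) {x : ℝ} (hx : 0 < x) (u : ℝ) :
    krs (scl f b hb hb1).h s x u = krs f.h s (x ^ b) u := by
  unfold krs Pool.Agent.Helper78.SG.ker
  congr 1
  simp only [zero_mul, Real.cosh_zero, one_mul]
  rw [Real.log_rpow hx]
  have h1 : ∀ y : ℝ, (scl f b hb hb1).h y * Real.cos (s * Real.log x * u * y) =
      1 / b * (fun z : ℝ => f.h z * Real.cos (s * (b * Real.log x) * u * z)) (y / b) := by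
    intro y
    show 1 / b * f.h (y / b) * Real.cos (s * Real.log x * u * y) = 1 / b * (f.h (y / b) * Real.cos (s * (b * Real.log x) * u * (y / b)))
    have e : s * (b * Real.log x) * u * (y / b) = s * Real.log x * u * y := by field_simp
    rw [e]
    ring
  simp only [h1]
  rw [integral_const_mul, Measure.integral_comp_div (fun z : ℝ => f.h z * Real.cos (s * (b * Real.log x) * u * z)) b,
    abs_of_pos hb, smul_eq_mul]
  field_simp

open scoped ArithmeticFunction.vonMangoldt

theorem scl_cc (f : TF) {b : ℝ} (hb : 0 < b) (hb1 : b ≤ 1) {s x : ℝ} (hx : 0 < x) (n : ℕ) :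
    cc71 (scl f b hb hb1).h s x n = cc71 f.h s (x ^ b) n := by
  unfold cc71 yy
  show 2 / Real.log x * (Λ n / Real.sqrt n) * (1 / b * f.h (Real.log n / Real.log x / s / b)) = _
  rw [Real.log_rpow hx]
  have e : Real.log n / (b * Real.log x) / s = Real.log n / Real.log x / s / b := by
    rw [div_div, div_div, div_div]
    congr 1
    ring
  rw [e]
  have e2 : 2 / (b * Real.log x) = 2 / Real.log x * (1 / b) := by
    rw [div_mul_div_comm, mul_one, mul_comm (Real.log x)]
  rw [e2]
  ring

theorem scl_pss (f : TF) {b : ℝ} (hb : 0 < b) (hb1 : b ≤ 1) {x : ℝ} (hx : 1 < x) (t : ℝ) :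
    pss (scl f b hb hb1).h 2 x t = pss f.h 2 (x ^ b) t := by
  have hx0 : 0 < x := by linarith
  have hX : 1 < x ^ b := Real.one_lt_rpow hx hb
  have hXx : x ^ b ≤ x := by
    calc x ^ b ≤ x ^ (1 : ℝ) := Real.rpow_le_rpow_of_exponent_le hx.le hb1
      _ = x := Real.rpow_one x
  rw [pss_eq71 _ (Or.inr rfl) hx t, pss_eq71 f (Or.inr rfl) hX t]
  have h1 : ∀ n ∈ Finset.range (⌊x⌋₊ + 1), cc71 (scl f b hb hb1).h 2 x n * Real.cos (Real.log n * t) =
      cc71 f.h 2 (x ^ b) n * Real.cos (Real.log n * t) := fun n _ => by rw [scl_cc f hb hb1 hx0]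
  rw [Finset.sum_congr rfl h1]
  symm
  refine Finset.sum_subset ?_ ?_
  · intro n hn
    rw [Finset.mem_range] at hn ⊢
    have := Nat.floor_le_floor hXx
    omega
  · intro n _ hn
    rw [Finset.mem_range, not_lt] at hn
    have h2 : x ^ b < n := by
      have h3 : ⌊x ^ b⌋₊ < n := hn
      exact (Nat.floor_lt (by linarith)).1 h3
    have h4 : 2 ≤ n := by
      have : (1 : ℝ) < n := hX.trans h2
      exact_mod_cast this
    unfold cc71
    rw [h_zero71 f (Or.inr rfl) hX h4, mul_zero, zero_mul]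
    rw [not_le]
    refine lt_of_le_of_lt ?_ h2
    calc (x ^ b) ^ (1 - (1 - 2 * f.th)) ≤ (x ^ b) ^ (1 : ℝ) :=
          Real.rpow_le_rpow_of_exponent_le hX.le (by linarith [f.th1])
      _ = x ^ b := Real.rpow_one _

end Pool.Agent.Helper22.SI
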