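import Pool.Agent.Helper22.SI.U3S
import Pool.Agent.Helper69.PQ.U4
import Pool.Agent.Helper22.SI.Defs

/-!
# SI: U4.lean of Helper69/PQ with the weight `wt g x T t` of the interval `[x, x + T]` instead of `om g T t`, uniformly in `x`

Adapted from Helper69/PQ/U4.lean; the mean value theorem `gmv` is replaced by `gmvS` (Helper69/SM/MV), which is uniform in `x`.
-/

open MeasureTheory Set Filter Topology
open Pool.Agent.Helper57.Zeta Pool.Agent.Helper57.PC Pool.Agent.Helper57.LH Pool.Agent.Helper78.SG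
open Pool.Agent.Helper4.SH Pool.Agent.Helper69.PP Pool.Agent.Helper22.SI
open Pool.Agent.Helper69.SM (wt gmvS wt_cont)

namespace Pool.Agent.Helper69.PQ.SI

open Pool.Agent.Helper69.PQ.U4

/-- bound of the integral over `B` by the integrals of the pieces -/
theorem int_leS (P : Par) (g f : TF) (hg0 : ∀ y, 0 ≤ g.h y) (k : ℕ) {C0 : ℝ} (x : ℝ) {T : ℝ} (hT : 0 < T)
    (h1 : ∀ t : ℝ, |FK P k T t| ≤ ∑ z ∈ QT P k, RR P T t z)
    (h2 : ∀ t : ℝ, 1 + |pss f.h 2 T t| ≤ C0 * ‖DP {1} (fun _ => 1) t‖ + ‖DP (SX f T) (cX f T) t‖) (B : Set ℝ) :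
    ∫ t in B, wt g.h x T t * (|FK P k T t| * (1 + |pss f.h 2 T t|)) ≤
      ∑ z ∈ QT P k, (C0 * (∫ t in B, wt g.h x T t * (RR P T t z * ‖DP {1} (fun _ => 1) t‖)) +
        ∫ t in B, wt g.h x T t * (RR P T t z * ‖DP (SX f T) (cX f T) t‖)) := by
  have i1 : ∀ z, Integrable (fun t => wt g.h x T t * (RR P T t z * ‖DP {1} (fun _ => 1) t‖)) (volume.restrict B) :=
    fun z => (wtI g x hT ((RR_cont P T z).mul (DP_cont _ _).norm)).restrict
  have i2 : ∀ z, Integrable (fun t => wt g.h x T t * (RR P T t z * ‖DP (SX f T) (cX f T) t‖)) (volume.restrict B) :=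
    fun z => (wtI g x hT ((RR_cont P T z).mul (DP_cont _ _).norm)).restrict
  have e : ∑ z ∈ QT P k, (C0 * (∫ t in B, wt g.h x T t * (RR P T t z * ‖DP {1} (fun _ => 1) t‖)) +
        ∫ t in B, wt g.h x T t * (RR P T t z * ‖DP (SX f T) (cX f T) t‖)) =
      ∫ t in B, ∑ z ∈ QT P k, (C0 * (wt g.h x T t * (RR P T t z * ‖DP {1} (fun _ => 1) t‖)) +
        wt g.h x T t * (RR P T t z * ‖DP (SX f T) (cX f T) t‖)) := by
    have i3 : ∀ z, Integrable (fun t => C0 * (wt g.h x T t * (RR P T t z * ‖DP {1} (fun _ => 1) t‖)) +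
        wt g.h x T t * (RR P T t z * ‖DP (SX f T) (cX f T) t‖)) (volume.restrict B) :=
      fun z => ((i1 z).const_mul C0).add (i2 z)
    rw [integral_finsetSum _ (fun z _ => i3 z)]
    refine Finset.sum_congr rfl fun z _ => ?_
    rw [integral_add ((i1 z).const_mul C0) (i2 z), integral_const_mul]
  rw [e]
  have hom : ∀ t, 0 ≤ wt g.h x T t := fun t => hg0 _
  apply integral_mono_of_nonneg
  · exact Eventually.of_forall fun t => mul_nonneg (hom t) (mul_nonneg (abs_nonneg _) (by positivity))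
  · exact integrable_finsetSum _ (fun z _ => ((i1 z).const_mul C0).add (i2 z))
  · refine Eventually.of_forall fun t => ?_
    have hR : 0 ≤ ∑ z ∈ QT P k, RR P T t z := Finset.sum_nonneg fun z _ => RR_nonneg P T t z
    have h3 : |FK P k T t| * (1 + |pss f.h 2 T t|) ≤
        (∑ z ∈ QT P k, RR P T t z) * (C0 * ‖DP {1} (fun _ => 1) t‖ + ‖DP (SX f T) (cX f T) t‖) :=
      mul_le_mul (h1 t) (h2 t) (by positivity) hR
    calc wt g.h x T t * (|FK P k T t| * (1 + |pss f.h 2 T t|))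
        ≤ wt g.h x T t * ((∑ z ∈ QT P k, RR P T t z) *
            (C0 * ‖DP {1} (fun _ => 1) t‖ + ‖DP (SX f T) (cX f T) t‖)) :=
          mul_le_mul_of_nonneg_left h3 (hom t)
      _ = ∑ z ∈ QT P k, (C0 * (wt g.h x T t * (RR P T t z * ‖DP {1} (fun _ => 1) t‖)) +
            wt g.h x T t * (RR P T t z * ‖DP (SX f T) (cX f T) t‖)) := by
          rw [Finset.sum_mul, Finset.mul_sum]
          refine Finset.sum_congr rfl fun z _ => ?_
          ring


/-- uniform integrability of the class `k` -/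
theorem ui_FKS (P : Par) (g : TF) (hg : g.th = 1 / 4) (hg0 : ∀ y, 0 ≤ g.h y) (hg1 : ∀ y, g.h y ≤ 1) {k : ℕ} {f : TF}
    (hf : KF P k f) : UIS g f 2 (FK P k) := by
  classical
  obtain ⟨C0, hC0, hpss⟩ := pss_le f
  obtain ⟨Kx, hKx, hadm⟩ := adm_X f
  have hG : (0 : ℝ) < P.G := by exact_mod_cast P.hG0
  have hθ0 : (0 : ℝ) ≤ (k + 2 * P.K) / P.G + P.e / 4 := by
    have := P.he
    positivity
  have hθ1 : 2 * f.th ≤ (k + 2 * P.K) / P.G + P.e / 4 := by
    have := hf.2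
    linarith
  have hFK := FK_le P k
  set N : ℝ := ((QT P k).card : ℝ) with hN
  -- the two families of bounds
  have u1 := fun z (hz : z ∈ QT P k) => ui_quadS P g hg hg0 hg1 hz 1 zero_le_one 0 hθ0
  have u2 := fun z (hz : z ∈ QT P k) => ui_quadS P g hg hg0 hg1 hz Kx hKx.le 1 hθ1
  constructor
  · -- boundedness
    have v1 : ∀ z ∈ QT P k, ∃ C : ℝ, 0 < C ∧ ∀ᶠ T : ℝ in atTop, ∀ x : ℝ,
        ∫ t, wt g.h x T t * (RR P T t z * ‖DP {1} (fun _ => 1) t‖) ≤ C * T := by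
      intro z hz
      obtain ⟨⟨C, hC, h⟩, -⟩ := u1 z hz
      refine ⟨C, hC, ?_⟩
      filter_upwards [h, eventually_gt_atTop 1] with T hT hT1 x
      exact hT x {1} (fun _ => 1) (adm_one hT1)
    have v2 : ∀ z ∈ QT P k, ∃ C : ℝ, 0 < C ∧ ∀ᶠ T : ℝ in atTop, ∀ x : ℝ,
        ∫ t, wt g.h x T t * (RR P T t z * ‖DP (SX f T) (cX f T) t‖) ≤ C * T := by
      intro z hz
      obtain ⟨⟨C, hC, h⟩, -⟩ := u2 z hz
      refine ⟨C, hC, ?_⟩
      filter_upwards [h, eventually_gt_atTop 1] with T hT hT1 x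
      exact hT x _ _ (hadm T hT1)
    choose! c1 hc1 hv1 using v1
    choose! c2 hc2 hv2 using v2
    have hs : 0 ≤ ∑ z ∈ QT P k, (C0 * c1 z + c2 z) :=
      Finset.sum_nonneg fun z hz => add_nonneg (mul_nonneg hC0.le (hc1 z hz).le) (hc2 z hz).le
    refine ⟨∑ z ∈ QT P k, (C0 * c1 z + c2 z) + 1, by linarith, ?_⟩
    have e1 : ∀ᶠ T : ℝ in atTop, ∀ z ∈ QT P k, ∀ x : ℝ,
        ∫ t, wt g.h x T t * (RR P T t z * ‖DP {1} (fun _ => 1) t‖) ≤ c1 z * T :=
      (Finset.eventually_all _).2 hv1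
    have e2 : ∀ᶠ T : ℝ in atTop, ∀ z ∈ QT P k, ∀ x : ℝ,
        ∫ t, wt g.h x T t * (RR P T t z * ‖DP (SX f T) (cX f T) t‖) ≤ c2 z * T :=
      (Finset.eventually_all _).2 hv2
    filter_upwards [e1, e2, hFK, hpss, eventually_gt_atTop 0] with T h1 h2 h3 h4 hT x
    have h5 := int_leS P g f hg0 k x hT h3 h4 Set.univ
    simp only [setIntegral_univ] at h5
    refine h5.trans ?_
    calc ∑ z ∈ QT P k, (C0 * (∫ t, wt g.h x T t * (RR P T t z * ‖DP {1} (fun _ => 1) t‖)) +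
        ∫ t, wt g.h x T t * (RR P T t z * ‖DP (SX f T) (cX f T) t‖))
        ≤ ∑ z ∈ QT P k, (C0 * (c1 z * T) + c2 z * T) := by
          refine Finset.sum_le_sum fun z hz => ?_
          exact add_le_add (mul_le_mul_of_nonneg_left (h1 z hz x) hC0.le) (h2 z hz x)
      _ = (∑ z ∈ QT P k, (C0 * c1 z + c2 z)) * T := by
          rw [Finset.sum_mul]
          refine Finset.sum_congr rfl fun z _ => ?_
          ring
      _ ≤ (∑ z ∈ QT P k, (C0 * c1 z + c2 z) + 1) * T := by nlinarith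
  · -- uniform integrability
    intro ε hε
    have hN0 : 0 ≤ N := Nat.cast_nonneg _
    set δ : ℝ := ε / ((N + 1) * (C0 + 1)) with hδ
    have hδ0 : 0 < δ := by positivity
    have v1 : ∀ z ∈ QT P k, ∃ η : ℝ, 0 < η ∧ ∀ᶠ T : ℝ in atTop, ∀ x : ℝ, ∀ B : Set ℝ, MeasurableSet B →
        volume B ≤ ENNReal.ofReal (η * T) →
        ∫ t in B, wt g.h x T t * (RR P T t z * ‖DP {1} (fun _ => 1) t‖) ≤ δ * T := by
      intro z hz
      obtain ⟨-, h⟩ := u1 z hz
      obtain ⟨η, hη, h⟩ := h δ hδ0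
      refine ⟨η, hη, ?_⟩
      filter_upwards [h, eventually_gt_atTop 1] with T hT hT1 x
      exact hT x {1} (fun _ => 1) (adm_one hT1)
    have v2 : ∀ z ∈ QT P k, ∃ η : ℝ, 0 < η ∧ ∀ᶠ T : ℝ in atTop, ∀ x : ℝ, ∀ B : Set ℝ, MeasurableSet B →
        volume B ≤ ENNReal.ofReal (η * T) →
        ∫ t in B, wt g.h x T t * (RR P T t z * ‖DP (SX f T) (cX f T) t‖) ≤ δ * T := by
      intro z hz
      obtain ⟨-, h⟩ := u2 z hz
      obtain ⟨η, hη, h⟩ := h δ hδ0
      refine ⟨η, hη, ?_⟩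
      filter_upwards [h, eventually_gt_atTop 1] with T hT hT1 x
      exact hT x _ _ (hadm T hT1)
    choose! c1 hc1 hv1 using v1
    choose! c2 hc2 hv2 using v2
    -- a common lower bound of the `η`
    obtain ⟨η, hη, hη1, hη2⟩ : ∃ η : ℝ, 0 < η ∧ (∀ z ∈ QT P k, η ≤ c1 z) ∧ (∀ z ∈ QT P k, η ≤ c2 z) := by
      have key : ∀ (S : Finset ((Finset ℕ × Finset ℕ) × (Finset ℕ × Finset ℕ)))
          (c : (Finset ℕ × Finset ℕ) × (Finset ℕ × Finset ℕ) → ℝ), (∀ z ∈ S, 0 < c z) →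
          ∃ η : ℝ, 0 < η ∧ ∀ z ∈ S, η ≤ c z := by
        intro S c hc
        rcases S.eq_empty_or_nonempty with rfl | hne
        · exact ⟨1, one_pos, by simp⟩
        · obtain ⟨z0, hz0, hz⟩ := S.exists_min_image c hne
          exact ⟨c z0, hc z0 hz0, hz⟩
      obtain ⟨a, ha, ha'⟩ := key _ c1 hc1
      obtain ⟨b, hb, hb'⟩ := key _ c2 hc2
      exact ⟨min a b, lt_min ha hb, fun z hz => (min_le_left _ _).trans (ha' z hz),
        fun z hz => (min_le_right _ _).trans (hb' z hz)⟩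
    refine ⟨η, hη, ?_⟩
    have e1 : ∀ᶠ T : ℝ in atTop, ∀ z ∈ QT P k, ∀ x : ℝ, ∀ B : Set ℝ, MeasurableSet B →
        volume B ≤ ENNReal.ofReal (c1 z * T) →
        ∫ t in B, wt g.h x T t * (RR P T t z * ‖DP {1} (fun _ => 1) t‖) ≤ δ * T :=
      (Finset.eventually_all _).2 hv1
    have e2 : ∀ᶠ T : ℝ in atTop, ∀ z ∈ QT P k, ∀ x : ℝ, ∀ B : Set ℝ, MeasurableSet B →
        volume B ≤ ENNReal.ofReal (c2 z * T) →
        ∫ t in B, wt g.h x T t * (RR P T t z * ‖DP (SX f T) (cX f T) t‖) ≤ δ * T :=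
      (Finset.eventually_all _).2 hv2
    filter_upwards [e1, e2, hFK, hpss, eventually_gt_atTop 0] with T h1 h2 h3 h4 hT x
    intro B hB hvB
    have h5 := int_leS P g f hg0 k x hT h3 h4 B
    refine h5.trans ?_
    have hN' : ((QT P k).card : ℝ) = N := rfl
    calc ∑ z ∈ QT P k, (C0 * (∫ t in B, wt g.h x T t * (RR P T t z * ‖DP {1} (fun _ => 1) t‖)) +
        ∫ t in B, wt g.h x T t * (RR P T t z * ‖DP (SX f T) (cX f T) t‖))
        ≤ ∑ z ∈ QT P k, (C0 * (δ * T) + δ * T) := by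
          refine Finset.sum_le_sum fun z hz => ?_
          refine add_le_add (mul_le_mul_of_nonneg_left (h1 z hz x B hB (hvB.trans ?_)) hC0.le)
            (h2 z hz x B hB (hvB.trans ?_))
          · exact ENNReal.ofReal_le_ofReal (mul_le_mul_of_nonneg_right (hη1 z hz) hT.le)
          · exact ENNReal.ofReal_le_ofReal (mul_le_mul_of_nonneg_right (hη2 z hz) hT.le)
      _ = N * ((C0 + 1) * (δ * T)) := by
          rw [Finset.sum_const, nsmul_eq_mul, hN']
          ring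
      _ ≤ (N + 1) * ((C0 + 1) * (δ * T)) := by
          apply mul_le_mul_of_nonneg_right (by linarith)
          positivity
      _ = ε * T := by
          rw [hδ]
          field_simp

end Pool.Agent.Helper69.PQ.SI
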