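import Pool.Agent.Helper22.SI.Z1

/-!
# SI, zero side, part 2: transfer, swap, upper bound
-/

open MeasureTheory Set Filter Topology
open Pool.Agent.Helper57.Zeta Pool.Agent.Helper57.PC Pool.Agent.Helper57.LH Pool.Agent.Helper78.SG
open Pool.Agent.Helper4.SH Pool.Agent.Helper22.SI
open scoped ContDiff Interval

namespace Pool.Agent.Helper69.SM.SI

/-- uniform integrability of `F (1 + |pss|)` over the short intervals `[x, x + x^b]` -/
def UIL (g f : TF) (s b : ℝ) (F : ℝ → ℝ → ℝ) : Prop :=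
  (∃ C : ℝ, 0 < C ∧ ∀ᶠ x : ℝ in atTop, ∫ t, wt g.h x (x ^ b) t * (|F x t| * (1 + |pss f.h s x t|)) ≤ C * x ^ b) ∧
  ∀ ε : ℝ, 0 < ε → ∃ η : ℝ, 0 < η ∧ ∀ᶠ x : ℝ in atTop, ∀ B : Set ℝ, MeasurableSet B →
    volume B ≤ ENNReal.ofReal (η * x ^ b) → ∫ t in B, wt g.h x (x ^ b) t * (|F x t| * (1 + |pss f.h s x t|)) ≤ ε * x ^ b

theorem transfer_I {c : ℝ} (hc : 0 < c) (g f : TF) (hg : g.th = 1 / 4) (hg0 : ∀ x, 0 ≤ g.h x)
    {s b d : ℝ} (hs : 1 ≤ s) (hs2 : s ≤ 2) (hb : 0 < b) (hb1 : b ≤ 1) (hd : 0 < d)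
    (F : ℝ → ℝ → ℝ) (hFc : ∀ T, Continuous (F T)) (hui : UIL g f s b F)
    {ε : ℝ} (hε : 0 < ε) : ∃ p : ℝ, 0 < p ∧ ∀ᶠ x : ℝ in atTop, CW c d x (x ^ b) ≤ p * (x ^ b * Real.log x) →
      |(∫ t, wt g.h x (x ^ b) t * (F x t * ZsI c f.h s x (x ^ b) t)) -
        ∫ t, wt g.h x (x ^ b) t * (F x t * (f.h 0 - pss f.h s x t))| ≤ ε * x ^ b := by
  obtain ⟨⟨C, hC0, hC⟩, hui⟩ := hui
  obtain ⟨K, hK0, hK⟩ := ZsI_bdd hc f hs
  obtain ⟨K', hK'⟩ : ∃ K' : ℝ, K' = K + |f.h 0| + 1 := ⟨_, rfl⟩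
  have hf0 := abs_nonneg (f.h 0)
  have hK'0 : 0 < K' := by rw [hK']; positivity
  obtain ⟨η, hη0, hη⟩ := hui (ε / (2 * K')) (by positivity)
  obtain ⟨e, he0, he⟩ : ∃ e : ℝ, 0 < e ∧ 3 * e * C = ε / 2 := by
    refine ⟨ε / (6 * C), by positivity, ?_⟩
    field_simp
    ring
  obtain ⟨p, hp, hweak⟩ := weak_loc c f (b := b) hs hs2 hd he0 hη0
  refine ⟨p, hp, ?_⟩
  filter_upwards [hC, hη, hweak, dev_locC hc f hs hs2 hb hb1 he0,
    main_term_up f hs hs2 he0, eventually_gt_atTop 1]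
    with x h1 h2 h3 h4 h5 hT hsum
  have hT0 : 0 < x := by linarith
  have hH0 : 0 < x ^ b := Real.rpow_pos_of_pos hT0 b
  have hHx : x ^ b ≤ x := by
    calc x ^ b ≤ x ^ (1 : ℝ) := Real.rpow_le_rpow_of_exponent_le hT.le hb1
      _ = x := Real.rpow_one x
  have hB := h3 hsum
  set B : Set ℝ := {t | e < GsC c f.h s x (x ^ b) t} with hBdef
  have hBm : MeasurableSet B := (isOpen_lt continuous_const (GsC_cont c f s x _)).measurableSet
  have hX := h2 B hBm hB
  have hom0 : ∀ t, 0 ≤ wt g.h x (x ^ b) t := fun t => hg0 _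
  have hpc := pss_cont f.h s x
  have hWc : Continuous (fun t => |F x t| * (1 + |pss f.h s x t|)) :=
    (hFc x).abs.mul (continuous_const.add hpc.abs)
  have i1 : Integrable (fun t => wt g.h x (x ^ b) t * (|F x t| * (1 + |pss f.h s x t|))) := wt_mul_integrable g hg hH0 hWc
  have i2 : Integrable (fun t => wt g.h x (x ^ b) t * (F x t * ZsI c f.h s x (x ^ b) t)) :=
    wt_mul_integrable g hg hH0 ((hFc x).mul (ZsI_cont c f s x _))
  have i3 : Integrable (fun t => wt g.h x (x ^ b) t * (F x t * (f.h 0 - pss f.h s x t))) :=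
    wt_mul_integrable g hg hH0 ((hFc x).mul (continuous_const.sub hpc))
  have hpt : ∀ t, ‖wt g.h x (x ^ b) t * (F x t * ZsI c f.h s x (x ^ b) t) - wt g.h x (x ^ b) t * (F x t * (f.h 0 - pss f.h s x t))‖ ≤
      3 * e * (wt g.h x (x ^ b) t * (|F x t| * (1 + |pss f.h s x t|))) +
      K' * B.indicator (fun t => wt g.h x (x ^ b) t * (|F x t| * (1 + |pss f.h s x t|))) t := by
    intro t
    have h0 := hom0 t
    have hF0 := abs_nonneg (F x t)
    have hp0 := abs_nonneg (pss f.h s x t)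
    have hW0 : 0 ≤ wt g.h x (x ^ b) t * (|F x t| * (1 + |pss f.h s x t|)) := by positivity
    have hI0 : 0 ≤ B.indicator (fun t => wt g.h x (x ^ b) t * (|F x t| * (1 + |pss f.h s x t|))) t :=
      indicator_nonneg (fun y _ => mul_nonneg (hom0 y) (by positivity)) t
    rw [← mul_sub, ← mul_sub, norm_mul, norm_mul, Real.norm_eq_abs, Real.norm_eq_abs, Real.norm_eq_abs,
      abs_of_nonneg h0]
    by_cases hz : wt g.h x (x ^ b) t = 0
    · rw [hz, zero_mul]
      rw [hz] at hW0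
      have : 0 ≤ 3 * e * (0 * (|F x t| * (1 + |pss f.h s x t|))) := by rw [zero_mul, mul_zero]
      nlinarith [mul_nonneg hK'0.le hI0]
    · have htI := wt_supp g hg hH0 t hz
      by_cases htB : t ∈ B
      · rw [indicator_of_mem htB]
        have h8 : |ZsI c f.h s x (x ^ b) t - (f.h 0 - pss f.h s x t)| ≤ K' * (1 + |pss f.h s x t|) := by
          have h9 := hK x hT (x ^ b) t
          have h10 := abs_sub (ZsI c f.h s x (x ^ b) t) (f.h 0 - pss f.h s x t)
          have h11 := abs_sub (f.h 0) (pss f.h s x t)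
          have h12 : K + |f.h 0| + |pss f.h s x t| ≤ K' * (1 + |pss f.h s x t|) := by
            rw [hK']
            nlinarith [mul_nonneg hK0.le hp0, mul_nonneg hf0 hp0]
          linarith
        have h13 : wt g.h x (x ^ b) t * (|F x t| * |ZsI c f.h s x (x ^ b) t - (f.h 0 - pss f.h s x t)|) ≤
            wt g.h x (x ^ b) t * (|F x t| * (K' * (1 + |pss f.h s x t|))) := by gcongr
        have h14 : wt g.h x (x ^ b) t * (|F x t| * (K' * (1 + |pss f.h s x t|))) =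
            K' * (wt g.h x (x ^ b) t * (|F x t| * (1 + |pss f.h s x t|))) := by ring
        have h15 : 0 ≤ 3 * e * (wt g.h x (x ^ b) t * (|F x t| * (1 + |pss f.h s x t|))) := by positivity
        linarith
      · rw [indicator_of_notMem htB, mul_zero, add_zero]
        have h8 : GsC c f.h s x (x ^ b) t ≤ e := by
          by_contra hcc
          exact htB (not_le.mp hcc)
        have h9 := h4 t htI
        have h10 := h5 t ⟨by linarith [htI.1], by linarith [htI.2]⟩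
        have h11 : |ZsI c f.h s x (x ^ b) t - (f.h 0 - pss f.h s x t)| ≤ 3 * e := by
          have h12 := abs_le.mp h9
          have h13 := abs_le.mp h10
          rw [abs_le]
          constructor <;> linarith [h12.1, h12.2, h13.1, h13.2]
        have h16 : 3 * e ≤ 3 * e * (1 + |pss f.h s x t|) := by nlinarith
        have h13 : wt g.h x (x ^ b) t * (|F x t| * |ZsI c f.h s x (x ^ b) t - (f.h 0 - pss f.h s x t)|) ≤
            wt g.h x (x ^ b) t * (|F x t| * (3 * e * (1 + |pss f.h s x t|))) := by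
          gcongr
          linarith
        have h14 : wt g.h x (x ^ b) t * (|F x t| * (3 * e * (1 + |pss f.h s x t|))) =
            3 * e * (wt g.h x (x ^ b) t * (|F x t| * (1 + |pss f.h s x t|))) := by ring
        linarith
  rw [← integral_sub i2 i3, ← Real.norm_eq_abs]
  have j1 : Integrable (fun t => 3 * e * (wt g.h x (x ^ b) t * (|F x t| * (1 + |pss f.h s x t|)))) := i1.const_mul _
  have j2 : Integrable (fun t => K' * B.indicator (fun t => wt g.h x (x ^ b) t * (|F x t| * (1 + |pss f.h s x t|))) t) :=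
    (i1.indicator hBm).const_mul _
  have hmain := norm_integral_le_of_norm_le (j1.add j2) (Eventually.of_forall hpt)
  refine hmain.trans ?_
  have e1 : ∫ t, (3 * e * (wt g.h x (x ^ b) t * (|F x t| * (1 + |pss f.h s x t|))) +
      K' * B.indicator (fun t => wt g.h x (x ^ b) t * (|F x t| * (1 + |pss f.h s x t|))) t) =
      3 * e * (∫ t, wt g.h x (x ^ b) t * (|F x t| * (1 + |pss f.h s x t|))) +
      K' * ∫ t in B, wt g.h x (x ^ b) t * (|F x t| * (1 + |pss f.h s x t|)) := by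
    rw [integral_add j1 j2, integral_const_mul, integral_const_mul, integral_indicator hBm]
  have e2 : (∫ t, ((fun t => 3 * e * (wt g.h x (x ^ b) t * (|F x t| * (1 + |pss f.h s x t|)))) +
      fun t => K' * B.indicator (fun t => wt g.h x (x ^ b) t * (|F x t| * (1 + |pss f.h s x t|))) t) t) =
      3 * e * (∫ t, wt g.h x (x ^ b) t * (|F x t| * (1 + |pss f.h s x t|))) +
      K' * ∫ t in B, wt g.h x (x ^ b) t * (|F x t| * (1 + |pss f.h s x t|)) := e1
  have k1 : 3 * e * (∫ t, wt g.h x (x ^ b) t * (|F x t| * (1 + |pss f.h s x t|))) ≤ 3 * e * (C * x ^ b) := by gcongr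
  have k2 : K' * (∫ t in B, wt g.h x (x ^ b) t * (|F x t| * (1 + |pss f.h s x t|))) ≤ K' * (ε / (2 * K') * x ^ b) := by gcongr
  have k3 : K' * (ε / (2 * K') * x ^ b) = ε / 2 * x ^ b := by field_simp
  have k4 : 3 * e * (C * x ^ b) = ε / 2 * x ^ b := by rw [← he]; ring
  rw [e2]
  linarith

theorem swap_I {c : ℝ} (hc : 0 < c) (g f : TF) (hg : g.th = 1 / 4) {s b : ℝ} (hs : 1 ≤ s) (hb : 0 < b)
    (F : ℝ → ℝ → ℝ) (hFc : ∀ T, Continuous (F T))
    (hFb : ∃ κ C0 : ℝ, κ < b ∧ ∀ᶠ T : ℝ in atTop, ∀ t, |F T t| ≤ C0 * T ^ κ) {ε : ℝ} (hε : 0 < ε) : ∀ᶠ x : ℝ in atTop,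
    |(∑ ρ ∈ IZJ c x (x ^ b), wt g.h x (x ^ b) (ρ : ℂ).im * ∫ t, F x t * krs f.h s x (t - (ρ : ℂ).im)) -
      ∫ t, wt g.h x (x ^ b) t * (F x t * ZsI c f.h s x (x ^ b) t)| ≤ ε * x ^ b := by
  obtain ⟨κ, C0, hκ, hF⟩ := hFb
  obtain ⟨K, hK, hlip⟩ := wt_lip g
  obtain ⟨C, hC, hmom⟩ := loc_moment f hs
  have hwev : ∀ᶠ x : ℝ in atTop, Real.pi * c ≤ Real.log x := Real.tendsto_log_atTop.eventually_ge_atTop _
  filter_upwards [pow_ev2 (3 / (2 * Real.pi * c) * (C0 * K * C)) hκ hε, eventually_ge_atTop (Real.exp 1), hF, hwev]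
    with x hT hTe hFA0 hwl
  have hT1 : 1 < x := lt_of_lt_of_le (by simpa using Real.add_one_lt_exp (x := 1) one_ne_zero |>.trans_le' (by norm_num)) hTe
  have hT0 : 0 < x := by linarith
  have hH0 : 0 < x ^ b := Real.rpow_pos_of_pos hT0 b
  have hH1 : 1 ≤ x ^ b := Real.one_le_rpow hT1.le hb.le
  have hL1 : 1 ≤ Real.log x := by
    rw [← Real.log_exp 1]
    exact Real.log_le_log (Real.exp_pos 1) hTe
  have hw1 : hw c x ≤ 1 := by unfold hw; rwa [div_le_one (by linarith)]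
  have hcard := card_IZJ hc hT1 hH0.le hw1
  set A := C0 * x ^ κ with hA
  have hFA : ∀ t, |F x t| ≤ A := hFA0
  have hA0 : 0 ≤ A := (abs_nonneg _).trans (hFA 0)
  have hkc : ∀ γ : ℝ, Continuous (fun t => krs f.h s x (t - γ)) := fun γ =>
    (krs_cont f s x).comp (continuous_id.sub continuous_const)
  have hki : ∀ γ : ℝ, Integrable (fun t => krs f.h s x (t - γ)) := fun γ =>
    (krs_integrable f hs hT1).comp_sub_right γ
  have hi1 : ∀ γ : ℝ, Integrable (fun t => F x t * krs f.h s x (t - γ)) := by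
    intro γ
    refine ((hki γ).abs.const_mul A).mono' ((hFc x).mul (hkc γ)).aestronglyMeasurable
      (Eventually.of_forall fun t => ?_)
    rw [Real.norm_eq_abs, abs_mul]
    exact mul_le_mul_of_nonneg_right (hFA t) (abs_nonneg _)
  have hi2 : ∀ γ : ℝ, Integrable (fun t => wt g.h x (x ^ b) t * (F x t * krs f.h s x (t - γ))) := by
    intro γ
    exact wt_mul_integrable g hg hH0 ((hFc x).mul (hkc γ))
  have e1 : ∫ t, wt g.h x (x ^ b) t * (F x t * ZsI c f.h s x (x ^ b) t) =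
      ∑ ρ ∈ IZJ c x (x ^ b), ∫ t, wt g.h x (x ^ b) t * (F x t * krs f.h s x (t - (ρ : ℂ).im)) := by
    rw [← integral_finsetSum _ (fun ρ _ => hi2 _)]
    congr 1
    ext t
    unfold ZsI
    rw [Finset.mul_sum, Finset.mul_sum]
  have hone : ∀ γ : ℝ, |wt g.h x (x ^ b) γ * (∫ t, F x t * krs f.h s x (t - γ)) -
      ∫ t, wt g.h x (x ^ b) t * (F x t * krs f.h s x (t - γ))| ≤ A * (K / x ^ b) * (C / Real.log x ^ 2) := by
    intro γ
    rw [← integral_const_mul, ← integral_sub ((hi1 γ).const_mul _) (hi2 γ)]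
    have hm := hmom x hT1 γ
    calc |∫ t, (wt g.h x (x ^ b) γ * (F x t * krs f.h s x (t - γ)) - wt g.h x (x ^ b) t * (F x t * krs f.h s x (t - γ)))|
        ≤ ∫ t, |wt g.h x (x ^ b) γ * (F x t * krs f.h s x (t - γ)) - wt g.h x (x ^ b) t * (F x t * krs f.h s x (t - γ))| :=
          abs_integral_le_integral_abs
      _ ≤ ∫ t, A * (K / x ^ b) * (|t - γ| * |krs f.h s x (t - γ)|) := by
          refine integral_mono (((hi1 γ).const_mul _).sub (hi2 γ)).abs (hm.1.const_mul _) fun t => ?_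
          have e2 : wt g.h x (x ^ b) γ * (F x t * krs f.h s x (t - γ)) - wt g.h x (x ^ b) t * (F x t * krs f.h s x (t - γ)) =
              (wt g.h x (x ^ b) γ - wt g.h x (x ^ b) t) * F x t * krs f.h s x (t - γ) := by ring
          have e3 : |wt g.h x (x ^ b) γ - wt g.h x (x ^ b) t| ≤ K / x ^ b * |t - γ| := hlip x (x ^ b) hH0 γ t
          simp only [e2, abs_mul]
          calc |wt g.h x (x ^ b) γ - wt g.h x (x ^ b) t| * |F x t| * |krs f.h s x (t - γ)|
              ≤ (K / x ^ b * |t - γ|) * A * |krs f.h s x (t - γ)| := by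
                apply mul_le_mul_of_nonneg_right _ (abs_nonneg _)
                exact mul_le_mul e3 (hFA t) (abs_nonneg _) (by positivity)
            _ = A * (K / x ^ b) * (|t - γ| * |krs f.h s x (t - γ)|) := by ring
      _ = A * (K / x ^ b) * ∫ t, |t - γ| * |krs f.h s x (t - γ)| := integral_const_mul _ _
      _ ≤ A * (K / x ^ b) * (C / Real.log x ^ 2) := mul_le_mul_of_nonneg_left hm.2 (by positivity)
  have hcard2 : ((IZJ c x (x ^ b)).card : ℝ) ≤ 3 / (2 * Real.pi * c) * (x ^ b * Real.log x) := by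
    unfold hw at hcard
    have h1 : ((IZJ c x (x ^ b)).card : ℝ) * (2 * (Real.pi * c / Real.log x)) ≤ 3 * x ^ b := by linarith
    have h2 : ((IZJ c x (x ^ b)).card : ℝ) = ((IZJ c x (x ^ b)).card : ℝ) * (2 * (Real.pi * c / Real.log x)) *
        (Real.log x / (2 * Real.pi * c)) := by
      field_simp
    rw [h2]
    calc ((IZJ c x (x ^ b)).card : ℝ) * (2 * (Real.pi * c / Real.log x)) * (Real.log x / (2 * Real.pi * c)) ≤
        3 * x ^ b * (Real.log x / (2 * Real.pi * c)) := by gcongr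
      _ = _ := by ring
  rw [e1, ← Finset.sum_sub_distrib]
  calc |∑ ρ ∈ IZJ c x (x ^ b), (wt g.h x (x ^ b) (ρ : ℂ).im * (∫ t, F x t * krs f.h s x (t - (ρ : ℂ).im)) -
        ∫ t, wt g.h x (x ^ b) t * (F x t * krs f.h s x (t - (ρ : ℂ).im)))|
      ≤ ∑ ρ ∈ IZJ c x (x ^ b), |wt g.h x (x ^ b) (ρ : ℂ).im * (∫ t, F x t * krs f.h s x (t - (ρ : ℂ).im)) -
        ∫ t, wt g.h x (x ^ b) t * (F x t * krs f.h s x (t - (ρ : ℂ).im))| := Finset.abs_sum_le_sum_abs _ _
    _ ≤ ∑ _ρ ∈ IZJ c x (x ^ b), A * (K / x ^ b) * (C / Real.log x ^ 2) := Finset.sum_le_sum fun ρ _ => hone _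
    _ = ((IZJ c x (x ^ b)).card : ℝ) * (A * (K / x ^ b) * (C / Real.log x ^ 2)) := by rw [Finset.sum_const, nsmul_eq_mul]
    _ ≤ (3 / (2 * Real.pi * c) * (x ^ b * Real.log x)) * (A * (K / x ^ b) * (C / Real.log x ^ 2)) :=
        mul_le_mul_of_nonneg_right hcard2 (by positivity)
    _ = (3 / (2 * Real.pi * c) * (A * K * C)) / Real.log x := by
        field_simp
    _ ≤ 3 / (2 * Real.pi * c) * (A * K * C) := div_le_self (by positivity) hL1
    _ = 3 / (2 * Real.pi * c) * (C0 * K * C) * x ^ κ := by rw [hA]; ring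
    _ ≤ ε * x ^ b := hT

theorem upper_I {c : ℝ} (hc : 0 < c) (g : TF) (hg : g.th = 1 / 4) (hg0 : ∀ x, 0 ≤ g.h x) {b : ℝ} (hb : 0 < b)
    (F : ℝ → ℝ → ℝ) (hFc : ∀ T, Continuous (F T)) (hF0 : ∀ T t, 0 ≤ F T t)
    (hFb : ∃ κ C0 : ℝ, κ < b ∧ ∀ᶠ T : ℝ in atTop, ∀ t, |F T t| ≤ C0 * T ^ κ)
    {ε : ℝ} (hε : 0 < ε) : ∀ᶠ x : ℝ in atTop,
    ∑ ρ ∈ IZJ c x (x ^ b), wt g.h x (x ^ b) (ρ : ℂ).im * (∫ t in ((ρ : ℂ).im - hw c x)..((ρ : ℂ).im + hw c x), F x t) ≤
      (∫ t, wt g.h x (x ^ b) t * F x t) + ε * x ^ b := by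
  obtain ⟨κ, C0, hκ, hFb⟩ := hFb
  obtain ⟨K, hK0, hKd⟩ := wt_lip g
  have hlog : ∀ᶠ T : ℝ in atTop, Real.pi * c ≤ Real.log T :=
    Real.tendsto_log_atTop.eventually_ge_atTop _
  filter_upwards [pow_ev2 (3 * (K : ℝ) * C0) hκ hε, hlog, eventually_gt_atTop 2, hFb] with x hp hl hT2 hFb
  have hT : 1 < x := by linarith
  have hT0 : 0 < x := by linarith
  have hH0 : 0 < x ^ b := Real.rpow_pos_of_pos hT0 b
  have hH1 : 1 ≤ x ^ b := Real.one_le_rpow hT.le hb.le
  have hL : 0 < Real.log x := Real.log_pos hT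
  have hw0 : 0 < hw c x := by unfold hw; positivity
  have hw1 : hw c x ≤ 1 := by unfold hw; rwa [div_le_one hL]
  set A0 : ℝ := C0 * x ^ κ with hA0d
  have hA0 : 0 ≤ A0 := (abs_nonneg _).trans (hFb 0)
  have hFb' : ∀ t, F x t ≤ A0 := fun t => (le_abs_self _).trans (hFb t)
  set e : ℝ := K / x ^ b * hw c x with he
  have he0 : 0 ≤ e := by positivity
  set G : ℝ → ℝ := fun t => (wt g.h x (x ^ b) t + e) * F x t with hG
  have hGc : Continuous G := ((wt_cont g x _).add continuous_const).mul (hFc x)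
  have hom0 : ∀ t, 0 ≤ wt g.h x (x ^ b) t := fun t => hg0 _
  have hG0 : ∀ t, 0 ≤ G t := fun t => mul_nonneg (add_nonneg (hom0 t) he0) (hF0 x t)
  set A : ZS → Set ℝ := fun ρ => Ioc ((ρ : ℂ).im - hw c x) ((ρ : ℂ).im + hw c x) with hA
  -- one window
  have hone : ∀ ρ ∈ IZJ c x (x ^ b), wt g.h x (x ^ b) (ρ : ℂ).im *
      (∫ t in ((ρ : ℂ).im - hw c x)..((ρ : ℂ).im + hw c x), F x t) ≤ ∫ t in A ρ, G t := by
    intro ρ _
    rw [intervalIntegral.integral_of_le (by linarith), ← integral_const_mul]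
    apply setIntegral_mono_on
    · exact ((continuous_const.mul (hFc x)).integrableOn_Icc).mono_set Ioc_subset_Icc_self
    · exact (hGc.integrableOn_Icc).mono_set Ioc_subset_Icc_self
    · exact measurableSet_Ioc
    · intro t ht
      apply mul_le_mul_of_nonneg_right _ (hF0 x t)
      have h1 := hKd x (x ^ b) hH0 (ρ : ℂ).im t
      have h2 : |t - (ρ : ℂ).im| ≤ hw c x := by
        rw [abs_le]
        constructor <;> linarith [ht.1, ht.2]
      have h3 : K / x ^ b * |t - (ρ : ℂ).im| ≤ e := by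
        rw [he]
        exact mul_le_mul_of_nonneg_left h2 (by positivity)
      have h4 := le_abs_self (wt g.h x (x ^ b) (ρ : ℂ).im - wt g.h x (x ^ b) t)
      linarith
  have hsub : (⋃ ρ ∈ IZJ c x (x ^ b), A ρ) ⊆ Icc (x - 1) (x + x ^ b + 1) := by
    intro t ht
    rw [mem_iUnion₂] at ht
    obtain ⟨ρ, hρ, h1, h2⟩ := ht
    obtain ⟨h3, h4⟩ := (mem_ZJ hT0.le hH0.le).mp (mem_IZJ.mp hρ).1
    constructor <;> linarith
  have hdisj : Set.Pairwise (↑(IZJ c x (x ^ b))) (Function.onFun Disjoint A) := by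
    intro ρ hρ ρ' hρ' hne
    rw [Function.onFun, Set.disjoint_left]
    intro t h1 h2
    have h3 := IZJ_sep hc hT (Finset.mem_coe.1 hρ) (Ne.symm hne)
    have h4 : |(ρ : ℂ).im - (ρ' : ℂ).im| ≤ 2 * hw c x := by
      rw [abs_le]
      constructor <;> linarith [h1.1, h1.2, h2.1, h2.2]
    linarith
  have hsum : ∑ ρ ∈ IZJ c x (x ^ b), ∫ t in A ρ, G t = ∫ t in ⋃ ρ ∈ IZJ c x (x ^ b), A ρ, G t := by
    rw [integral_biUnion_finset (IZJ c x (x ^ b)) (fun ρ _ => measurableSet_Ioc) hdisj]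
    intro ρ _
    exact (hGc.integrableOn_Icc).mono_set Ioc_subset_Icc_self
  have hle1 : ∑ ρ ∈ IZJ c x (x ^ b), wt g.h x (x ^ b) (ρ : ℂ).im *
      (∫ t in ((ρ : ℂ).im - hw c x)..((ρ : ℂ).im + hw c x), F x t) ≤ ∫ t in Icc (x - 1) (x + x ^ b + 1), G t := by
    refine le_trans (Finset.sum_le_sum hone) ?_
    rw [hsum]
    apply setIntegral_mono_set hGc.integrableOn_Icc
    · exact Eventually.of_forall hG0
    · exact hsub.eventuallyLE
  have hint1 : IntegrableOn (fun t => wt g.h x (x ^ b) t * F x t) (Icc (x - 1) (x + x ^ b + 1)) :=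
    ((wt_cont g x _).mul (hFc x)).integrableOn_Icc
  have hint2 : IntegrableOn (fun t => e * F x t) (Icc (x - 1) (x + x ^ b + 1)) :=
    (continuous_const.mul (hFc x)).integrableOn_Icc
  have hsplit : ∫ t in Icc (x - 1) (x + x ^ b + 1), G t =
      (∫ t in Icc (x - 1) (x + x ^ b + 1), wt g.h x (x ^ b) t * F x t) + ∫ t in Icc (x - 1) (x + x ^ b + 1), e * F x t := by
    rw [← integral_add hint1 hint2]
    congr 1
    funext t
    simp only [hG]
    ring
  have hfull : ∫ t in Icc (x - 1) (x + x ^ b + 1), wt g.h x (x ^ b) t * F x t = ∫ t, wt g.h x (x ^ b) t * F x t := by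
    apply setIntegral_eq_integral_of_forall_compl_eq_zero
    intro t ht
    by_contra hne
    have h1 : wt g.h x (x ^ b) t ≠ 0 := fun h => hne (by rw [h, zero_mul])
    have h2 := wt_supp g hg hH0 t h1
    exact ht ⟨by linarith [h2.1], by linarith [h2.2]⟩
  have hvol : (volume : Measure ℝ).real (Icc (x - 1) (x + x ^ b + 1)) = x ^ b + 2 := by
    rw [Real.volume_real_Icc_of_le (by linarith)]
    ring
  have herr : ∫ t in Icc (x - 1) (x + x ^ b + 1), e * F x t ≤ ε * x ^ b := by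
    have h1 : ∫ t in Icc (x - 1) (x + x ^ b + 1), e * F x t ≤ ∫ t in Icc (x - 1) (x + x ^ b + 1), e * A0 := by
      apply setIntegral_mono_on hint2 continuous_const.integrableOn_Icc measurableSet_Icc
      intro t _
      exact mul_le_mul_of_nonneg_left (hFb' t) he0
    rw [setIntegral_const, hvol, smul_eq_mul] at h1
    refine le_trans h1 (le_trans ?_ hp)
    have h2 : (x ^ b + 2) / x ^ b ≤ 3 := by
      rw [div_le_iff₀ hH0]; linarith
    have h3 : (x ^ b + 2) * (e * A0) = ((x ^ b + 2) / x ^ b) * hw c x * (K * A0) := by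
      rw [he]; field_simp
    rw [h3]
    have h4 : (x ^ b + 2) / x ^ b * hw c x ≤ 3 * 1 :=
      mul_le_mul h2 hw1 hw0.le (by norm_num)
    have h5 : 0 ≤ (K : ℝ) * A0 := by positivity
    have h6 := mul_le_mul_of_nonneg_right h4 h5
    calc (x ^ b + 2) / x ^ b * hw c x * (K * A0) ≤ 3 * 1 * (K * A0) := h6
      _ = 3 * K * C0 * x ^ κ := by rw [hA0d]; ring
  calc _ ≤ _ := hle1
    _ = _ := hsplit
    _ ≤ _ := by rw [hfull]; linarith

/-- the lower bound for one part `F` of the weight -/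
theorem part_lowerI {c : ℝ} (hc : 0 < c) (g f : TF) (hg : g.th = 1 / 4) (hg0 : ∀ x, 0 ≤ g.h x)
    {s b d : ℝ} (hs : 1 ≤ s) (hs2 : s ≤ 2) (hb : 0 < b) (hb1 : b ≤ 1) (hd : 0 < d)
    (F : ℝ → ℝ → ℝ) (hFc : ∀ T, Continuous (F T))
    (hFb : ∃ κ C0 : ℝ, κ < b ∧ ∀ᶠ T : ℝ in atTop, ∀ t, |F T t| ≤ C0 * T ^ κ)
    (hui : UIL g f s b F)
    (hwin : ∀ᶠ T : ℝ in atTop, ∀ γ : ℝ, ∫ t in (γ - hw c T)..(γ + hw c T), F T t = ∫ t, F T t * krs f.h s T (t - γ))
    {ε : ℝ} (hε : 0 < ε) : ∃ p : ℝ, 0 < p ∧ ∀ᶠ x : ℝ in atTop, CW c d x (x ^ b) ≤ p * (x ^ b * Real.log x) →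
      |(∑ ρ ∈ IZJ c x (x ^ b), wt g.h x (x ^ b) (ρ : ℂ).im *
          (∫ t in ((ρ : ℂ).im - hw c x)..((ρ : ℂ).im + hw c x), F x t)) -
        (f.h 0 * (∫ t, wt g.h x (x ^ b) t * F x t) - ∫ t, wt g.h x (x ^ b) t * (F x t * pss f.h s x t))| ≤ ε * x ^ b := by
  obtain ⟨p, hp, htr⟩ := transfer_I hc g f hg hg0 hs hs2 hb hb1 hd F hFc hui (half_pos hε)
  refine ⟨p, hp, ?_⟩
  filter_upwards [htr, swap_I hc g f hg hs hb F hFc hFb (half_pos hε), hwin, eventually_gt_atTop 1] with x h1 h2 h3 hT hcl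
  have hT0 : 0 < x := by linarith
  have hH0 : 0 < x ^ b := Real.rpow_pos_of_pos hT0 b
  have h1' := h1 hcl
  have h5 : (∑ ρ ∈ IZJ c x (x ^ b), wt g.h x (x ^ b) (ρ : ℂ).im *
        (∫ t in ((ρ : ℂ).im - hw c x)..((ρ : ℂ).im + hw c x), F x t)) =
      ∑ ρ ∈ IZJ c x (x ^ b), wt g.h x (x ^ b) (ρ : ℂ).im * ∫ t, F x t * krs f.h s x (t - (ρ : ℂ).im) := by
    refine Finset.sum_congr rfl fun ρ _ => ?_
    rw [h3]
  have i1 : Integrable (fun t => wt g.h x (x ^ b) t * F x t) := wt_mul_integrable g hg hH0 (hFc x)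
  have i2 : Integrable (fun t => wt g.h x (x ^ b) t * (F x t * pss f.h s x t)) :=
    wt_mul_integrable g hg hH0 ((hFc x).mul (pss_cont f.h s x))
  have h6 : ∫ t, wt g.h x (x ^ b) t * (F x t * (f.h 0 - pss f.h s x t)) =
      f.h 0 * (∫ t, wt g.h x (x ^ b) t * F x t) - ∫ t, wt g.h x (x ^ b) t * (F x t * pss f.h s x t) := by
    rw [← integral_const_mul, ← integral_sub (i1.const_mul _) i2]
    refine integral_congr_ae (Eventually.of_forall fun t => ?_)
    simp only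
    ring
  rw [h5]
  rw [h6] at h1'
  have e1 := abs_le.mp h1'
  have e2 := abs_le.mp h2
  rw [abs_le]
  constructor <;> linarith [e1.1, e1.2, e2.1, e2.2]

end Pool.Agent.Helper69.SM.SI
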