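import Pool.Agent.Helper22.SI.Ar
import Pool.Agent.Helper22.SI.Sc
import Pool.Agent.Helper22.SI.Z2
import Pool.Agent.Helper22.SI.U4S
import Pool.Agent.Helper22.SI.E1S
import Pool.Agent.Helper22.SI.E4S

/-!
# SI: the main theorem: close zeros in every short interval `[x, x + x^b]`
-/

open MeasureTheory Set Filter Topology
open Pool.Agent.Helper57.Zeta Pool.Agent.Helper57.PC Pool.Agent.Helper57.LH Pool.Agent.Helper78.SG
open Pool.Agent.Helper4.SH Pool.Agent.Helper69.PP Pool.Agent.Helper22.SI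
open Pool.Agent.Helper69.SM (wt gmvS wt_cont wt_mul_integrable wt_hcs)
open Pool.Agent.Helper69.SM.SI (CW IZJ UIL part_lowerI upper_I)

namespace Pool.Agent.Helper69.PQ.SI

theorem hw_eq {c b x : ℝ} (hb : 0 < b) (hx : 1 < x) {c' : ℝ} (hc' : c' = c * b) :
    hwc c' (x ^ b) = SM.hw c x := by
  unfold hwc SM.hw
  rw [Real.log_rpow (by linarith), hc']
  have hL : 0 < Real.log x := Real.log_pos hx
  field_simp

/-- the uniform integrability in the scale `x^b` -/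
theorem uil_of {g f : TF} {F : ℝ → ℝ → ℝ} (h : UIS g f 2 F) {b : ℝ} (hb : 0 < b) (hb1 : b ≤ 1) :
    UIL g (scl f b hb hb1) 2 b (fun x t => F (x ^ b) t) := by
  obtain ⟨⟨C, hC, h1⟩, h2⟩ := h
  have ht := tendsto_rpow_atTop hb
  refine ⟨⟨C, hC, ?_⟩, fun ε hε => ?_⟩
  · filter_upwards [ht.eventually h1, eventually_gt_atTop 1] with x hx hx1
    have h3 := hx x
    simp only [scl_pss f hb hb1 hx1]
    exact h3
  · obtain ⟨η, hη, h3⟩ := h2 ε hε
    refine ⟨η, hη, ?_⟩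
    filter_upwards [ht.eventually h3, eventually_gt_atTop 1] with x hx hx1 B hB hvB
    have h4 := hx x B hB hvB
    simp only [scl_pss f hb hb1 hx1]
    exact h4

theorem crude_b {F : ℝ → ℝ → ℝ} (h : ∀ᶠ T : ℝ in atTop, ∀ t : ℝ, |F T t| ≤ 16 * T ^ ((4199 : ℝ) / 4200)) {b : ℝ} (hb : 0 < b) :
    ∃ κ C0 : ℝ, κ < b ∧ ∀ᶠ x : ℝ in atTop, ∀ t, |F (x ^ b) t| ≤ C0 * x ^ κ := by
  refine ⟨b * (4199 / 4200), 16, by linarith, ?_⟩
  filter_upwards [(tendsto_rpow_atTop hb).eventually h, eventually_gt_atTop 0] with x hx hx0 t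
  rw [Real.rpow_mul hx0.le]
  exact hx t

theorem main_si {b c d : ℝ} (hb : 0 < b) (hb1 : b ≤ 1) (hc : 0 < c) (hc1 : c < 1) (hcb : 103 ≤ c * (103 + 97 * b))
    (hcb1 : c * b ≤ 103 / 200) (hd : 0 < d) :
    ∃ p : ℝ, 0 < p ∧ ∀ᶠ x : ℝ in atTop, p * (x ^ b * Real.log x) ≤ CW c d x (x ^ b) := by
  obtain ⟨P, hPc, hAR⟩ := arith (c' := c * b) (by positivity) hcb1
  obtain ⟨g, hg, hg0, hg1, hOm⟩ := exists_g
  obtain ⟨Om, hOme⟩ : ∃ Om : ℝ, Om = ∫ y, g.h y := ⟨_, rfl⟩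
  have hOm0 : 0 < Om := by rw [hOme]; exact hOm
  have hf' : ∀ k : ℕ, ∃ f : TF, k ∈ KR P → KF P k f := by
    intro k
    by_cases hk : k ∈ KR P
    · obtain ⟨f, hf⟩ := exists_KF P hk
      exact ⟨f, fun _ => hf⟩
    · exact ⟨g, fun h => absurd h hk⟩
  choose f hf using hf'
  have htd := tendsto_rpow_atTop hb
  obtain ⟨N, hN⟩ : ∃ N : ℝ, N = ((KR P).card : ℝ) + 4 := ⟨_, rfl⟩
  have hN0 : 0 < N := by rw [hN]; positivity
  obtain ⟨ε0, hε0e⟩ : ∃ ε0 : ℝ, ε0 = c * b / 515000 := ⟨_, rfl⟩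
  have hε0 : 0 < ε0 := by rw [hε0e]; positivity
  obtain ⟨ε, hεe⟩ : ∃ ε : ℝ, ε = Om * ε0 / (4 * N) := ⟨_, rfl⟩
  have hε : 0 < ε := by rw [hεe]; positivity
  have hpl : ∀ k : ℕ, ∃ p : ℝ, 0 < p ∧ (k ∈ KR P → ∀ᶠ x : ℝ in atTop, CW c d x (x ^ b) ≤ p * (x ^ b * Real.log x) →
      |(∑ ρ ∈ IZJ c x (x ^ b), wt g.h x (x ^ b) (ρ : ℂ).im *
          (∫ t in ((ρ : ℂ).im - SM.hw c x)..((ρ : ℂ).im + SM.hw c x), FK P k (x ^ b) t)) -
        (c * (∫ t, wt g.h x (x ^ b) t * FK P k (x ^ b) t) -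
          ∫ t, wt g.h x (x ^ b) t * (FK P k (x ^ b) t * pss (f k).h 2 (x ^ b) t))| ≤ ε * x ^ b) := by
    intro k
    by_cases hk : k ∈ KR P
    · have hkf := hf k hk
      obtain ⟨p, hp, h⟩ := part_lowerI hc g (scl (f k) b hb hb1) hg hg0 (s := 2) (by norm_num) le_rfl hb hb1 hd
        (fun x t => FK P k (x ^ b) t) (fun T => FK_cont P k (T ^ b))
        (crude_b (F := FK P k) (by
          filter_upwards [FK_crude P] with T hT t
          exact hT k t) hb)
        (uil_of (ui_FKS P g hg hg0 hg1 hkf) hb hb1) (by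
          filter_upwards [eventually_gt_atTop 1] with x hx γ
          have h1 := window_FK hkf (Real.one_lt_rpow hx hb) γ
          rw [hw_eq hb hx hPc] at h1
          rw [h1]
          refine integral_congr_ae (Eventually.of_forall fun t => ?_)
          simp only
          rw [scl_krs (f k) hb hb1 2 (by linarith)]) hε
      refine ⟨p, hp, fun _ => ?_⟩
      have h0 : (scl (f k) b hb hb1).h 0 = c := by
        rw [scl_zero, KF_zero hkf, hPc]
        field_simp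
      filter_upwards [h, eventually_gt_atTop 1] with x hx hx1 hcw
      have h2 := hx hcw
      rw [h0] at h2
      simp only [scl_pss (f k) hb hb1 hx1] at h2
      exact h2
    · exact ⟨1, one_pos, fun h => absurd h hk⟩
  choose p hp hlow using hpl
  have hne : (KR P).Nonempty := ⟨0, by unfold KR; simp⟩
  obtain ⟨p0, hp0, hp0le⟩ : ∃ p0 : ℝ, 0 < p0 ∧ ∀ k ∈ KR P, p0 ≤ p k := by
    refine ⟨(KR P).inf' hne p, ?_, fun k hk => Finset.inf'_le _ hk⟩
    rw [Finset.lt_inf'_iff]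
    exact fun k _ => hp k
  refine ⟨p0, hp0, ?_⟩
  have hall : ∀ᶠ x : ℝ in atTop, ∀ k ∈ KR P, CW c d x (x ^ b) ≤ p k * (x ^ b * Real.log x) →
      |(∑ ρ ∈ IZJ c x (x ^ b), wt g.h x (x ^ b) (ρ : ℂ).im *
          (∫ t in ((ρ : ℂ).im - SM.hw c x)..((ρ : ℂ).im + SM.hw c x), FK P k (x ^ b) t)) -
        (c * (∫ t, wt g.h x (x ^ b) t * FK P k (x ^ b) t) -
          ∫ t, wt g.h x (x ^ b) t * (FK P k (x ^ b) t * pss (f k).h 2 (x ^ b) t))| ≤ ε * x ^ b := by
    rw [Filter.eventually_all_finset]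
    exact fun k hk => hlow k hk
  filter_upwards [hall, upper_I hc g hg hg0 hb (fun x t => FF P (x ^ b) t) (fun T => FF_cont P (T ^ b))
    (fun T t => FF_nonneg P (T ^ b) t) (crude_b (F := FF P) (FF_crude P) hb) hε, htd.eventually (mean_FFS P g hε),
    htd.eventually (mean_FKS P g f (fun k hk => hf k hk) hε), htd.eventually hAR, htd.eventually (AT_one_le P),
    eventually_gt_atTop 1] with x h1 h2 h3' h4' h5' h6 hx
  by_contra hcon
  rw [not_le] at hcon
  have hx0 : 0 < x := by linarith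
  have hL : 0 < Real.log x := Real.log_pos hx
  have h3 := h3' x
  have h4 := h4' x
  obtain ⟨T, hTe⟩ : ∃ T : ℝ, T = x ^ b := ⟨_, rfl⟩
  rw [← hTe] at h1 h2 h3 h4 h5' h6 hcon
  have hT0 : 0 < T := by rw [hTe]; exact Real.rpow_pos_of_pos hx0 b
  have hTL : 0 ≤ T * Real.log x := by positivity
  have h1' : ∀ k ∈ KR P,
      |(∑ ρ ∈ IZJ c x T, wt g.h x T (ρ : ℂ).im *
          (∫ t in ((ρ : ℂ).im - SM.hw c x)..((ρ : ℂ).im + SM.hw c x), FK P k T t)) -
        (c * (∫ t, wt g.h x T t * FK P k T t) - ∫ t, wt g.h x T t * (FK P k T t * pss (f k).h 2 T t))| ≤ ε * T := by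
    intro k hk
    exact h1 k hk (hcon.le.trans (mul_le_mul_of_nonneg_right (hp0le k hk) hTL))
  have hi : ∀ k, Integrable (fun t => wt g.h x T t * FK P k T t) := fun k =>
    wt_mul_integrable g hg hT0 (FK_cont P k T)
  have hsum : ∫ t, wt g.h x T t * FF P T t = ∑ k ∈ KR P, ∫ t, wt g.h x T t * FK P k T t := by
    rw [← integral_finsetSum _ (fun k _ => hi k)]
    refine integral_congr_ae (Eventually.of_forall fun t => ?_)
    simp only [FF_eq, Finset.mul_sum]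
  have hwsum : ∑ ρ ∈ IZJ c x T, wt g.h x T (ρ : ℂ).im *
      (∫ t in ((ρ : ℂ).im - SM.hw c x)..((ρ : ℂ).im + SM.hw c x), FF P T t) =
      ∑ k ∈ KR P, ∑ ρ ∈ IZJ c x T, wt g.h x T (ρ : ℂ).im *
        (∫ t in ((ρ : ℂ).im - SM.hw c x)..((ρ : ℂ).im + SM.hw c x), FK P k T t) := by
    rw [Finset.sum_comm]
    refine Finset.sum_congr rfl fun ρ _ => ?_
    rw [← Finset.mul_sum, ← intervalIntegral.integral_finsetSum]
    · congr 1
      refine intervalIntegral.integral_congr fun t _ => ?_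
      simp only [FF_eq]
    · intro k _
      exact (FK_cont P k T).intervalIntegrable _ _
  rw [hwsum] at h2
  have hlow' : c * (∫ t, wt g.h x T t * FF P T t) - (∑ k ∈ KR P, ∫ t, wt g.h x T t * (FK P k T t * pss (f k).h 2 T t)) -
      (KR P).card * (ε * T) ≤ ∑ k ∈ KR P, ∑ ρ ∈ IZJ c x T, wt g.h x T (ρ : ℂ).im *
        (∫ t in ((ρ : ℂ).im - SM.hw c x)..((ρ : ℂ).im + SM.hw c x), FK P k T t) := by
    rw [hsum, Finset.mul_sum, ← nsmul_eq_mul, ← Finset.sum_const, ← Finset.sum_sub_distrib, ← Finset.sum_sub_distrib]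
    refine Finset.sum_le_sum fun k hk => ?_
    have := (abs_le.mp (h1' k hk)).1
    linarith
  have e3 := abs_le.mp h3
  have e4 := abs_le.mp h4
  rw [← hOme] at e3 e4
  have hAT0 : 0 ≤ AT P T := by linarith
  have h5 : (1 - c + ε0) * AT P T ≤ BT P T := by
    refine le_trans (mul_le_mul_of_nonneg_right ?_ hAT0) h5'
    rw [hε0e]
    linarith
  -- the contradiction
  have hI : (1 - c) * (∫ t, wt g.h x T t * FF P T t) ≤ (1 - c) * (T * Om * AT P T + ε * T) :=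
    mul_le_mul_of_nonneg_left (by linarith [e3.2]) (by linarith)
  have hkey : T * Om * ((1 - c + ε0) * AT P T) ≤ T * Om * BT P T :=
    mul_le_mul_of_nonneg_left h5 (by positivity)
  have hmain : T * Om * BT P T ≤ (1 - c) * (T * Om * AT P T) + (N - 1) * (ε * T) := by
    rw [hN]
    have h7 : (1 - c) * (ε * T) ≤ 1 * (ε * T) := mul_le_mul_of_nonneg_right (by linarith) (by positivity)
    nlinarith [e4.2, h2, hlow', hI]
  have hfin : T * Om * (ε0 * AT P T) ≤ N * (ε * T) := by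
    have h8 : 0 ≤ ε * T := by positivity
    nlinarith [hkey, hmain]
  have h9 : T * Om * ε0 ≤ T * Om * (ε0 * AT P T) := by
    have h10 : 0 ≤ T * Om * ε0 := by positivity
    nlinarith
  have h11 : N * (ε * T) = T * Om * ε0 / 4 := by
    rw [hεe]
    field_simp
  have h12 : 0 < T * Om * ε0 := by positivity
  linarith

end Pool.Agent.Helper69.PQ.SI
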