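import Pool.Agent.Helper69.PQ.U1
import Pool.Agent.Helper22.SI.WtI

/-!
# SI: U1.lean of Helper69/PQ with the weight `wt g x T t` of the interval `[x, x + T]` instead of `om g T t`, uniformly in `x`

Adapted from Helper69/PQ/U1.lean; the mean value theorem `gmv` is replaced by `gmvS` (Helper69/SM/MV), which is uniform in `x`.
-/

open MeasureTheory Set Filter Topology
open Pool.Agent.Helper57.Zeta Pool.Agent.Helper57.PC Pool.Agent.Helper57.LH Pool.Agent.Helper78.SG
open Pool.Agent.Helper4.SH Pool.Agent.Helper69.PP Pool.Agent.Helper22.SI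
open Pool.Agent.Helper69.SM (wt gmvS wt_cont)

namespace Pool.Agent.Helper69.PQ.SI

private lemma wt_cs (g : TF) (hg : g.th = 1 / 4) (x : ℝ) {T : ℝ} (hT : 1 ≤ T) :
    ∀ t, t ∉ Icc x (x + T) → wt g.h x T t = 0 := by
  intro t ht
  have hT0 : 0 < T := by linarith
  apply wt_zero g x hT0
  rw [hg]
  intro h
  apply ht
  constructor
  · nlinarith [h.1]
  · nlinarith [h.2]

/-- uniform integrability of `F` when `K F ≤ Q + M(K)` for all `K` and `Q` is bounded in the mean -/
theorem ui_genS (g : TF) (hg : g.th = 1 / 4) (hg0 : ∀ y, 0 ≤ g.h y) (hg1 : ∀ y, g.h y ≤ 1) {C : ℝ} (hC : 0 < C) {m : ℝ → ℝ}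
    (hm : ∀ K, 0 < m K) :
    ∃ C' : ℝ, 0 < C' ∧ (∀ ε : ℝ, 0 < ε → ∃ η : ℝ, 0 < η ∧ ∀ x T : ℝ, 1 ≤ T → ∀ F Q : ℝ → ℝ,
      Continuous F → Continuous Q → (∀ t, 0 ≤ Q t) → (∀ K t, 0 ≤ K → K * F t ≤ Q t + m K) →
      ∫ t, wt g.h x T t * Q t ≤ C * T →
      (∫ t, wt g.h x T t * F t ≤ C' * T) ∧
      ∀ B : Set ℝ, MeasurableSet B → volume B ≤ ENNReal.ofReal (η * T) → ∫ t in B, wt g.h x T t * F t ≤ ε * T) := by
  have hM1 := hm 1
  refine ⟨C + m 1, by positivity, ?_⟩
  intro ε hε
  obtain ⟨K, hKdef⟩ : ∃ K : ℝ, K = 2 * C / ε + 1 := ⟨_, rfl⟩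
  have hK0 : 0 < K := by rw [hKdef]; positivity
  have hCK : C / K ≤ ε / 2 := by
    rw [div_le_iff₀ hK0, hKdef]
    have : ε / 2 * (2 * C / ε + 1) = C + ε / 2 := by field_simp
    rw [this]; linarith
  obtain ⟨M, hM⟩ : ∃ M : ℝ, M = m K / K := ⟨_, rfl⟩
  have hM0 : 0 < M := by rw [hM]; exact div_pos (hm K) hK0
  refine ⟨ε / (2 * M), by positivity, ?_⟩
  intro x T hT F Q cF hS hS0 hFQ hSi
  have hT0 : 0 < T := by linarith
  have om0 : ∀ t, 0 ≤ wt g.h x T t := fun t => hg0 _
  have om1 : ∀ t, wt g.h x T t ≤ 1 := fun t => hg1 _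
  have hI := wtI g x hT0 cF
  have hSI := wtI g x hT0 hS
  have hOI : Integrable (fun t => wt g.h x T t) := by
    have := wtI g x hT0 (continuous_const (y := (1 : ℝ)))
    simpa using this
  have hO : ∫ t, wt g.h x T t ≤ T := by
    have e1 : ∫ t, wt g.h x T t = ∫ t in Icc x (x + T), wt g.h x T t := by
      rw [setIntegral_eq_integral_of_forall_compl_eq_zero]
      intro t ht
      exact wt_cs g hg x hT t ht
    rw [e1]
    calc ∫ t in Icc x (x + T), wt g.h x T t ≤ ∫ t in Icc x (x + T), (1 : ℝ) := by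
          apply setIntegral_mono hOI.integrableOn
          · exact integrableOn_const (by simp)
          · exact om1
      _ = T := by simp [hT0.le]
  constructor
  · have hpt : ∀ t, wt g.h x T t * F t ≤ wt g.h x T t * Q t + m 1 * wt g.h x T t := by
      intro t
      have y := hFQ 1 t zero_le_one
      rw [one_mul] at y
      calc wt g.h x T t * F t ≤ wt g.h x T t * (Q t + m 1) := mul_le_mul_of_nonneg_left y (om0 t)
        _ = _ := by ring
    have hMO : ∫ t, m 1 * wt g.h x T t ≤ m 1 * T := by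
      rw [integral_const_mul]
      exact mul_le_mul_of_nonneg_left hO hM1.le
    calc ∫ t, wt g.h x T t * F t
        ≤ ∫ t, (wt g.h x T t * Q t + m 1 * wt g.h x T t) := integral_mono hI (hSI.add (hOI.const_mul _)) hpt
      _ = (∫ t, wt g.h x T t * Q t) + ∫ t, m 1 * wt g.h x T t := integral_add hSI (hOI.const_mul _)
      _ ≤ (C + m 1) * T := by linarith
  · intro B hB hvB
    have hfin : volume B < ⊤ := lt_of_le_of_lt hvB ENNReal.ofReal_lt_top
    have hpt : ∀ t, wt g.h x T t * F t ≤ (1 / K) * (wt g.h x T t * Q t) + M * wt g.h x T t := by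
      intro t
      have y := hFQ K t hK0.le
      have y2 : F t ≤ (1 / K) * Q t + M := by
        have : (1 / K) * (K * F t) = F t := by
          field_simp
        rw [← this]
        calc (1 / K) * (K * F t) ≤ (1 / K) * (Q t + m K) := mul_le_mul_of_nonneg_left y (by positivity)
          _ = _ := by rw [hM]; ring
      calc wt g.h x T t * F t ≤ wt g.h x T t * ((1 / K) * Q t + M) := mul_le_mul_of_nonneg_left y2 (om0 t)
        _ = _ := by ring
    have j1 : IntegrableOn (fun t => (1 / K) * (wt g.h x T t * Q t)) B := (hSI.const_mul _).integrableOn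
    have j2 : IntegrableOn (fun t => M * wt g.h x T t) B := (hOI.const_mul _).integrableOn
    have s1 : ∫ t in B, (1 / K) * (wt g.h x T t * Q t) ≤ (1 / K) * (C * T) := by
      rw [integral_const_mul]
      apply mul_le_mul_of_nonneg_left _ (by positivity)
      refine le_trans ?_ hSi
      exact setIntegral_le_integral hSI (Eventually.of_forall fun t => mul_nonneg (om0 t) (hS0 t))
    have s2 : ∫ t in B, M * wt g.h x T t ≤ M * (ε / (2 * M) * T) := by
      rw [integral_const_mul]
      apply mul_le_mul_of_nonneg_left _ hM0.le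
      calc ∫ t in B, wt g.h x T t ≤ ∫ t in B, (1 : ℝ) := by
            apply setIntegral_mono hOI.integrableOn
            · exact integrableOn_const hfin.ne
            · exact om1
        _ = (volume B).toReal := by simp [Measure.real]
        _ ≤ ε / (2 * M) * T := ENNReal.toReal_le_of_le_ofReal (by positivity) hvB
    calc ∫ t in B, wt g.h x T t * F t
        ≤ ∫ t in B, ((1 / K) * (wt g.h x T t * Q t) + M * wt g.h x T t) := setIntegral_mono hI.integrableOn (j1.add j2) hpt
      _ = _ := integral_add j1 j2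
      _ ≤ (1 / K) * (C * T) + M * (ε / (2 * M) * T) := add_le_add s1 s2
      _ = (C / K) * T + ε / 2 * T := by field_simp
      _ ≤ ε / 2 * T + ε / 2 * T := by
          have := mul_le_mul_of_nonneg_right hCK hT0.le
          linarith
      _ = ε * T := by ring

end Pool.Agent.Helper69.PQ.SI
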