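import Pool.Agent.Helper22.SI.U2S
import Pool.Agent.Helper69.PQ.U3

/-!
# SI: U3.lean of Helper69/PQ with the weight `wt g x T t` of the interval `[x, x + T]` instead of `om g T t`, uniformly in `x`

Adapted from Helper69/PQ/U3.lean; the mean value theorem `gmv` is replaced by `gmvS` (Helper69/SM/MV), which is uniform in `x`.
-/

open MeasureTheory Set Filter Topology
open Pool.Agent.Helper57.Zeta Pool.Agent.Helper57.PC Pool.Agent.Helper57.LH Pool.Agent.Helper78.SG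
open Pool.Agent.Helper4.SH Pool.Agent.Helper69.PP Pool.Agent.Helper22.SI
open Pool.Agent.Helper69.SM (wt gmvS wt_cont)

namespace Pool.Agent.Helper69.PQ.SI

/-- the same for all quadruples of class `k` -/
theorem ui_quadS (P : Par) (g : TF) (hg : g.th = 1 / 4) (hg0 : ∀ y, 0 ≤ g.h y) (hg1 : ∀ y, g.h y ≤ 1)
    {k : ℕ} {z : (Finset ℕ × Finset ℕ) × (Finset ℕ × Finset ℕ)} (hz : z ∈ QT P k) (Kx : ℝ) (hKx : 0 ≤ Kx) (d : ℕ) {θ : ℝ}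
    (hθ : θ ≤ (k + 2 * P.K) / P.G + P.e / 4) :
    (∃ C : ℝ, 0 < C ∧ ∀ᶠ T : ℝ in atTop, ∀ (x : ℝ) (S : Finset ℕ) (c : ℕ → ℝ), Adm Kx d θ T S c →
      ∫ t, wt g.h x T t * ((∏ l ∈ z.1.1, Rl P T t l) * (∏ l ∈ z.1.2, Rl P T t l) *
        ((∏ l ∈ z.2.1, Rl P T t l) * ∏ l ∈ z.2.2, Rl P T t l) * ‖DP S c t‖) ≤ C * T) ∧
    ∀ ε : ℝ, 0 < ε → ∃ η : ℝ, 0 < η ∧ ∀ᶠ T : ℝ in atTop, ∀ (x : ℝ) (S : Finset ℕ) (c : ℕ → ℝ), Adm Kx d θ T S c →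
      ∀ B : Set ℝ, MeasurableSet B → volume B ≤ ENNReal.ofReal (η * T) →
      ∫ t in B, wt g.h x T t * ((∏ l ∈ z.1.1, Rl P T t l) * (∏ l ∈ z.1.2, Rl P T t l) *
        ((∏ l ∈ z.2.1, Rl P T t l) * ∏ l ∈ z.2.2, Rl P T t l) * ‖DP S c t‖) ≤ ε * T := by
  classical
  have hz' : (((TA P z.1.1 ∧ TB P z.1.2) ∧ (TA P z.2.1 ∧ TB P z.2.2)) ∧
      (((US z.1.1 : ℤ) - US z.1.2) - ((US z.2.1 : ℤ) - US z.2.2)).natAbs = k) := by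
    unfold QT at hz
    simp only [Finset.mem_filter, Finset.mem_product] at hz
    exact ⟨⟨hz.1.1.2, hz.1.2.2⟩, hz.2⟩
  obtain ⟨⟨⟨hA1, hB1⟩, hA2, hB2⟩, hk⟩ := hz'
  rcases le_total 0 (((US z.1.1 : ℤ) - US z.1.2) - ((US z.2.1 : ℤ) - US z.2.2)) with hv | hv
  · exact ui_quad_posS P g hg hg0 hg1 hA1 hB2 hv hk Kx hKx d hθ
  · have hv' : 0 ≤ (((US z.2.1 : ℤ) - US z.2.2) - ((US z.1.1 : ℤ) - US z.1.2)) := by linarith
    have hk' : (((US z.2.1 : ℤ) - US z.2.2) - ((US z.1.1 : ℤ) - US z.1.2)).natAbs = k := by omega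
    have key := ui_quad_posS P g hg hg0 hg1 hA2 hB1 hv' hk' Kx hKx d hθ
    have e : ∀ (T t : ℝ), ((∏ l ∈ z.2.1, Rl P T t l) * (∏ l ∈ z.2.2, Rl P T t l) *
        ((∏ l ∈ z.1.1, Rl P T t l) * ∏ l ∈ z.1.2, Rl P T t l)) = ((∏ l ∈ z.1.1, Rl P T t l) * (∏ l ∈ z.1.2, Rl P T t l) *
        ((∏ l ∈ z.2.1, Rl P T t l) * ∏ l ∈ z.2.2, Rl P T t l)) := by
      intro T t
      ring
    simpa only [e] using key

end Pool.Agent.Helper69.PQ.SI
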