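import Pool.Agent.Helper4.PPZ.Local
import Pool.Agent.Helper22.SI.Defs

/-!
# SI, zero side: few close zeros in a short interval

The zeros of `[x + H/8, x + 7H/8]` (`ZJ x H`) are split into the close ones (`CZJ`) and the others (`IZJ`), which are simple, on the
line, and separated. The close ones contribute little outside a small set when `∑ m(ρ) x^(d|β - 1/2|)` over them is small.
-/

open MeasureTheory Set Filter Topology
open Pool.Agent.Helper57.Zeta Pool.Agent.Helper57.PC Pool.Agent.Helper57.LH Pool.Agent.Helper78.SG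
open Pool.Agent.Helper4.SH Pool.Agent.Helper22.SI
open scoped ContDiff Interval

namespace Pool.Agent.Helper69.SM.SI

open Classical in
/-- the zeros of the window that are not close -/
noncomputable def IZJ (c x H : ℝ) : Finset ZS := (ZJ x H).filter (fun ρ => ¬ CloseC c x ρ)

open Classical in
/-- the close zeros of the window -/
noncomputable def CZJ (c x H : ℝ) : Finset ZS := (ZJ x H).filter (CloseC c x)

/-- the weighted number of the close zeros of the window -/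
noncomputable def CW (c d x H : ℝ) : ℝ := ∑ ρ ∈ CZJ c x H, mx ρ * x ^ (d * |(ρ : ℂ).re - 1 / 2|)

theorem mem_IZJ {c x H : ℝ} {ρ : ZS} : ρ ∈ IZJ c x H ↔ ρ ∈ ZJ x H ∧ ¬ CloseC c x ρ := by
  classical
  unfold IZJ
  rw [Finset.mem_filter]

theorem mem_CZJ {c x H : ℝ} {ρ : ZS} : ρ ∈ CZJ c x H ↔ ρ ∈ ZJ x H ∧ CloseC c x ρ := by
  classical
  unfold CZJ
  rw [Finset.mem_filter]

/-- elements of `IZJ` are at distance more than the full window from all other zeros -/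
theorem IZJ_sep {c x H : ℝ} (hc : 0 < c) (hx : 1 < x) {ρ ρ' : ZS} (h : ρ ∈ IZJ c x H) (hne : ρ' ≠ ρ) :
    2 * hw c x < |(ρ : ℂ).im - (ρ' : ℂ).im| := by
  obtain ⟨_, _, h3⟩ := Pool.Agent.Helper69.PP.iso_props_c hc (mem_IZJ.mp h).2
  have h4 := h3 ρ' hne
  have hL : 0 < Real.log x := Real.log_pos hx
  have hp : 0 < 2 * Real.pi := by positivity
  rw [lt_div_iff₀ hp] at h4
  unfold hw
  have h5 : 2 * (Real.pi * c / Real.log x) = c * (2 * Real.pi) / Real.log x := by ring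
  rw [h5, div_lt_iff₀ hL]
  exact h4

/-- the sum over the zeros that are not close -/
noncomputable def ZsI (c : ℝ) (h : ℝ → ℝ) (s x H t : ℝ) : ℝ := ∑ ρ ∈ IZJ c x H, krs h s x (t - (ρ : ℂ).im)

/-- the contribution of the close zeros -/
noncomputable def GsC (c : ℝ) (h : ℝ → ℝ) (s x H t : ℝ) : ℝ := ∑ ρ ∈ CZJ c x H, mx ρ * |kzs h s x t ρ|

theorem GsC_cont (c : ℝ) (f : TF) (s x H : ℝ) : Continuous (fun t => GsC c f.h s x H t) := by
  unfold GsC kzs
  refine continuous_finsetSum _ fun ρ _ => continuous_const.mul ?_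
  exact (continuous_const.mul (kz_cont f _ _)).abs

theorem ZsI_cont (c : ℝ) (f : TF) (s x H : ℝ) : Continuous (fun t => ZsI c f.h s x H t) := by
  unfold ZsI krs
  refine continuous_finsetSum _ fun ρ _ => continuous_const.mul ?_
  exact (ker_cont f 0).comp (by fun_prop)

theorem ZsI_bdd {c : ℝ} (hc : 0 < c) (f : TF) {s : ℝ} (hs : 1 ≤ s) :
    ∃ C : ℝ, 0 < C ∧ ∀ x : ℝ, 1 < x → ∀ H t : ℝ, |ZsI c f.h s x H t| ≤ C := by
  obtain ⟨C, hC, hk⟩ := ker_decay f 2
  have hg : 0 ≤ ∑' k : ℤ, HCaux.gk k := tsum_nonneg HCaux.gk_nonneg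
  have hs0 : 0 ≤ s := by linarith
  have hpi := Real.pi_pos
  obtain ⟨w, hw'⟩ : ∃ w : ℝ, w = 2 * Real.pi * c := ⟨_, rfl⟩
  have hw0 : 0 < w := by rw [hw']; positivity
  refine ⟨s * C * ((1 + 1 / w) ^ 2 * ∑' k : ℤ, HCaux.gk k) + 1, by positivity, ?_⟩
  intro T hT H t
  have hL : 0 < Real.log T := Real.log_pos hT
  have h1 : ∀ ρ ∈ IZJ c T H, |krs f.h s T (t - (ρ : ℂ).im)| ≤
      s * C * ((1 + 1 / w) ^ 2 * (1 / (1 + |Real.log T * (t - (ρ : ℂ).im) / w|) ^ 2)) := by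
    intro ρ _
    unfold krs
    have h2 := hk 0 (s * Real.log T * (t - (ρ : ℂ).im))
    rw [abs_zero, Real.exp_zero, mul_one] at h2
    rw [abs_mul, abs_of_nonneg hs0]
    have h3 : |Real.log T * (t - (ρ : ℂ).im)| ≤ |s * Real.log T * (t - (ρ : ℂ).im)| := by
      rw [mul_assoc, abs_mul s, abs_of_nonneg hs0]
      exact le_mul_of_one_le_left (abs_nonneg _) hs
    set x := |Real.log T * (t - (ρ : ℂ).im)| with hx
    have hx0 : 0 ≤ x := abs_nonneg _
    have h4 : C / (1 + |s * Real.log T * (t - (ρ : ℂ).im)|) ^ 2 ≤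
        C * ((1 + 1 / w) ^ 2 * (1 / (1 + |Real.log T * (t - (ρ : ℂ).im) / w|) ^ 2)) := by
      rw [abs_div, abs_of_pos hw0, ← hx, ← mul_assoc, mul_one_div]
      rw [div_le_div_iff₀ (by positivity) (by positivity)]
      have h5 : (1 + x / w) ≤ (1 + 1 / w) * (1 + |s * Real.log T * (t - (ρ : ℂ).im)|) := by
        have h6 : (1 + 1 / w) * (1 + x) ≤ (1 + 1 / w) * (1 + |s * Real.log T * (t - (ρ : ℂ).im)|) := by
          apply mul_le_mul_of_nonneg_left _ (by positivity)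
          linarith
        refine le_trans ?_ h6
        have h7 : (1 + 1 / w) * (1 + x) = 1 + x / w + (1 / w + x) := by field_simp; ring
        rw [h7]
        have : 0 ≤ 1 / w + x := by positivity
        linarith
      have h6 : (1 + x / w) ^ 2 ≤ ((1 + 1 / w) * (1 + |s * Real.log T * (t - (ρ : ℂ).im)|)) ^ 2 :=
        pow_le_pow_left₀ (by positivity) h5 2
      calc C * (1 + x / w) ^ 2 ≤ C * ((1 + 1 / w) * (1 + |s * Real.log T * (t - (ρ : ℂ).im)|)) ^ 2 :=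
            mul_le_mul_of_nonneg_left h6 hC.le
        _ = C * (1 + 1 / w) ^ 2 * (1 + |s * Real.log T * (t - (ρ : ℂ).im)|) ^ 2 := by ring
    calc s * |ker f.h 0 (s * Real.log T * (t - (ρ : ℂ).im))|
        ≤ s * (C * ((1 + 1 / w) ^ 2 * (1 / (1 + |Real.log T * (t - (ρ : ℂ).im) / w|) ^ 2))) :=
          mul_le_mul_of_nonneg_left (h2.trans h4) hs0
      _ = _ := by ring
  have h5 : ∑ ρ ∈ IZJ c T H, 1 / (1 + |Real.log T * (t - (ρ : ℂ).im) / w|) ^ 2 ≤ ∑' k : ℤ, HCaux.gk k := by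
    refine HCaux.sum_sep (IZJ c T H) (fun ρ => Real.log T * (t - (ρ : ℂ).im) / w) ?_
    intro ρ hρ ρ' _ hne
    have h6 := IZJ_sep hc hT hρ hne
    have h7 : Real.log T * (t - (ρ : ℂ).im) / w - Real.log T * (t - (ρ' : ℂ).im) / w =
        Real.log T * ((ρ' : ℂ).im - (ρ : ℂ).im) / w := by ring
    show 1 < |Real.log T * (t - (ρ : ℂ).im) / w - Real.log T * (t - (ρ' : ℂ).im) / w|
    rw [h7, abs_div, abs_mul, abs_of_pos hL, abs_of_pos hw0, abs_sub_comm, one_lt_div hw0]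
    have h8 : Real.log T * (2 * hw c T) = w := by
      unfold hw
      rw [hw']
      field_simp
    have h9 : Real.log T * (2 * hw c T) < Real.log T * |(ρ : ℂ).im - (ρ' : ℂ).im| :=
      mul_lt_mul_of_pos_left h6 hL
    rw [h8] at h9
    exact h9
  unfold ZsI
  calc |∑ ρ ∈ IZJ c T H, krs f.h s T (t - (ρ : ℂ).im)|
      ≤ ∑ ρ ∈ IZJ c T H, |krs f.h s T (t - (ρ : ℂ).im)| := Finset.abs_sum_le_sum_abs _ _
    _ ≤ ∑ ρ ∈ IZJ c T H, s * C * ((1 + 1 / w) ^ 2 * (1 / (1 + |Real.log T * (t - (ρ : ℂ).im) / w|) ^ 2)) :=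
        Finset.sum_le_sum h1
    _ = s * C * ((1 + 1 / w) ^ 2 * ∑ ρ ∈ IZJ c T H, 1 / (1 + |Real.log T * (t - (ρ : ℂ).im) / w|) ^ 2) := by
        rw [Finset.mul_sum, Finset.mul_sum]
    _ ≤ s * C * ((1 + 1 / w) ^ 2 * ∑' k : ℤ, HCaux.gk k) := by
        apply mul_le_mul_of_nonneg_left _ (by positivity)
        exact mul_le_mul_of_nonneg_left h5 (by positivity)
    _ ≤ _ := by linarith

/-- the number of the zeros in the window that are not close -/
theorem card_IZJ {c x H : ℝ} (hc : 0 < c) (hx : 1 < x) (hH : 0 ≤ H) (hw1 : hw c x ≤ 1) :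
    ((IZJ c x H).card : ℝ) * (2 * hw c x) ≤ H + 2 := by
  have hL : 0 < Real.log x := Real.log_pos hx
  have hw0 : 0 < hw c x := by unfold hw; positivity
  set A : ZS → Set ℝ := fun ρ => Ioc ((ρ : ℂ).im - hw c x) ((ρ : ℂ).im + hw c x) with hA
  have hsub : (⋃ ρ ∈ IZJ c x H, A ρ) ⊆ Icc (x - 1) (x + H + 1) := by
    intro t ht
    rw [mem_iUnion₂] at ht
    obtain ⟨ρ, hρ, h1, h2⟩ := ht
    obtain ⟨h3, h4⟩ := (mem_ZJ (by linarith) hH).mp (mem_IZJ.mp hρ).1
    constructor <;> linarith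
  have hdisj : Set.Pairwise (↑(IZJ c x H)) (Function.onFun Disjoint A) := by
    intro ρ hρ ρ' hρ' hne
    rw [Function.onFun, Set.disjoint_left]
    intro t h1 h2
    have h3 := IZJ_sep hc hx (Finset.mem_coe.1 hρ) (Ne.symm hne)
    have h4 : |(ρ : ℂ).im - (ρ' : ℂ).im| ≤ 2 * hw c x := by
      rw [abs_le]
      constructor <;> linarith [h1.1, h1.2, h2.1, h2.2]
    linarith
  have h1 : (volume (⋃ ρ ∈ IZJ c x H, A ρ)).toReal = ∑ ρ ∈ IZJ c x H, (volume (A ρ)).toReal := by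
    rw [measure_biUnion_finset hdisj (fun ρ _ => measurableSet_Ioc), ENNReal.toReal_sum]
    intro ρ _
    rw [hA]
    simp
  have h2 : ∀ ρ ∈ IZJ c x H, (volume (A ρ)).toReal = 2 * hw c x := by
    intro ρ _
    rw [hA]
    simp only [Real.volume_Ioc]
    rw [ENNReal.toReal_ofReal (by linarith)]
    ring
  rw [Finset.sum_congr rfl h2, Finset.sum_const, nsmul_eq_mul] at h1
  rw [← h1]
  have h3 : (volume (⋃ ρ ∈ IZJ c x H, A ρ)).toReal ≤ (volume (Icc (x - 1) (x + H + 1))).toReal :=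
    ENNReal.toReal_mono (by simp) (measure_mono hsub)
  refine h3.trans ?_
  rw [Real.volume_Icc, ENNReal.toReal_ofReal (by linarith)]
  linarith

/-- few close zeros (with the weight `x^(d|β - 1/2|)`): their contribution is small outside a small set -/
theorem weak_loc (c : ℝ) (f : TF) {s d b η ε : ℝ} (hs : 1 ≤ s) (hs2 : s ≤ 2) (hd : 0 < d) (hη : 0 < η) (hε : 0 < ε) :
    ∃ p : ℝ, 0 < p ∧ ∀ᶠ x : ℝ in atTop, CW c d x (x ^ b) ≤ p * (x ^ b * Real.log x) →
      volume {t : ℝ | η < GsC c f.h s x (x ^ b) t} ≤ ENNReal.ofReal (ε * x ^ b) := by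
  obtain ⟨r, hr⟩ : ∃ r, r = min (d / 2) 1 := ⟨_, rfl⟩
  have hs0 : 0 < s := by linarith
  have hr0 : 0 < r := by
    rw [hr]
    exact lt_min (by linarith) one_pos
  have hr1 : r ≤ 1 := by
    rw [hr]
    exact min_le_right _ _
  have hrd : r * s ≤ d := by
    have h1 : r ≤ d / 2 := by
      rw [hr]
      exact min_le_left _ _
    nlinarith
  obtain ⟨C', hC', hint⟩ := int_rpow f hr0 hr1
  have hηr : 0 < (η / s) ^ r := Real.rpow_pos_of_pos (by positivity) r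
  refine ⟨ε * (η / s) ^ r / C', by positivity, ?_⟩
  filter_upwards [eventually_ge_atTop (Real.exp 1)] with x hTe hsum
  have hT0 : 0 < x := lt_of_lt_of_le (Real.exp_pos 1) hTe
  have hH0 : 0 < x ^ b := Real.rpow_pos_of_pos hT0 b
  have hL : 1 ≤ Real.log x := by
    rw [Real.le_log_iff_exp_le hT0]
    exact hTe
  have hL0 : 0 < Real.log x := by linarith
  have hsL : 1 ≤ s * Real.log x := by nlinarith
  obtain ⟨hi, hb⟩ := hint (s * Real.log x) hsL (CZJ c x (x ^ b))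
  have hmain : ∑ ρ ∈ CZJ c x (x ^ b), mx ρ * Real.exp (r * |s * Real.log x * ((ρ : ℂ).re - 1 / 2)|) ≤
      ε * (η / s) ^ r / C' * (x ^ b * Real.log x) := by
    refine le_trans ?_ hsum
    unfold CW
    refine Finset.sum_le_sum fun ρ _ => ?_
    refine mul_le_mul_of_nonneg_left ?_ (mx_nonneg _)
    rw [Real.rpow_def_of_pos hT0]
    refine Real.exp_le_exp.2 ?_
    rw [abs_mul, abs_of_pos (by positivity : 0 < s * Real.log x)]
    have h1 := abs_nonneg ((ρ : ℂ).re - 1 / 2)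
    calc r * (s * Real.log x * |(ρ : ℂ).re - 1 / 2|) = (r * s) * (Real.log x * |(ρ : ℂ).re - 1 / 2|) := by ring
      _ ≤ d * (Real.log x * |(ρ : ℂ).re - 1 / 2|) := mul_le_mul_of_nonneg_right hrd (by positivity)
      _ = Real.log x * (d * |(ρ : ℂ).re - 1 / 2|) := by ring
  have hA : ∫ t, (∑ ρ ∈ CZJ c x (x ^ b), mx ρ * |kz f.h (s * Real.log x) t ρ|) ^ r ≤ ε * (η / s) ^ r * x ^ b := by
    refine le_trans hb ?_
    calc C' / (s * Real.log x) * ∑ ρ ∈ CZJ c x (x ^ b), mx ρ * Real.exp (r * |s * Real.log x * ((ρ : ℂ).re - 1 / 2)|)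
        ≤ C' / (s * Real.log x) * (ε * (η / s) ^ r / C' * (x ^ b * Real.log x)) :=
          mul_le_mul_of_nonneg_left hmain (by positivity)
      _ = ε * (η / s) ^ r * x ^ b / s := by
          field_simp
      _ ≤ ε * (η / s) ^ r * x ^ b := div_le_self (by positivity) hs
  have hfin := weak_cheb (fun t => ∑ ρ ∈ CZJ c x (x ^ b), mx ρ * |kz f.h (s * Real.log x) t ρ|)
    (fun t => Finset.sum_nonneg fun ρ _ => mul_nonneg (mx_nonneg _) (abs_nonneg _)) hr0
    (by positivity : 0 < η / s) hi hA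
  have e : ε * (η / s) ^ r * x ^ b / (η / s) ^ r = ε * x ^ b := by
    field_simp
  rw [e] at hfin
  refine le_trans (measure_mono ?_) hfin
  intro t ht
  simp only [Set.mem_ofPred_eq] at ht ⊢
  rw [div_lt_iff₀ hs0]
  refine lt_of_lt_of_eq ht ?_
  unfold GsC kzs
  rw [Finset.sum_mul]
  refine Finset.sum_congr rfl fun ρ _ => ?_
  rw [abs_mul, abs_of_pos hs0]
  ring

theorem dev_locC {c : ℝ} (hc : 0 < c) (f : TF) {s b ε : ℝ} (hs : 1 ≤ s) (hs2 : s ≤ 2) (hb : 0 < b) (hb1 : b ≤ 1)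
    (hε : 0 < ε) : ∀ᶠ x : ℝ in atTop, ∀ t ∈ Icc (x + x ^ b / 4) (x + 3 * x ^ b / 4),
    |Xs f.h s x t - ZsI c f.h s x (x ^ b) t| ≤ GsC c f.h s x (x ^ b) t + ε := by
  classical
  filter_upwards [tail_loc f hs hs2 hb hb1 hε, eventually_gt_atTop 1] with x hT hT1
  intro t ht
  have hx0 : 0 < x := by linarith
  have hH0 : 0 < x ^ b := Real.rpow_pos_of_pos hx0 b
  have htail := hT t ht
  have hsl := explicit_s f hs hT1 t
  have h1 : |Xs f.h s x t - ∑ ρ ∈ ZJ x (x ^ b), mx ρ * kzs f.h s x t ρ| ≤ ε := by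
    have hlim : Tendsto (fun F : Finset ZS => |(∑ ρ ∈ F, mx ρ * kzs f.h s x t ρ) - ∑ ρ ∈ ZJ x (x ^ b), mx ρ * kzs f.h s x t ρ|)
        atTop (𝓝 |Xs f.h s x t - ∑ ρ ∈ ZJ x (x ^ b), mx ρ * kzs f.h s x t ρ|) :=
      (hsl.sub_const _).abs
    refine le_of_tendsto hlim ?_
    filter_upwards [eventually_ge_atTop (ZJ x (x ^ b))] with F hF
    rw [← Finset.sum_sdiff hF, add_sub_cancel_right]
    calc |∑ ρ ∈ F \ ZJ x (x ^ b), mx ρ * kzs f.h s x t ρ| ≤ ∑ ρ ∈ F \ ZJ x (x ^ b), |mx ρ * kzs f.h s x t ρ| :=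
          Finset.abs_sum_le_sum_abs _ _
      _ = ∑ ρ ∈ F \ ZJ x (x ^ b), mx ρ * |kzs f.h s x t ρ| := by
          refine Finset.sum_congr rfl fun ρ _ => ?_
          rw [abs_mul, abs_of_nonneg (mx_nonneg _)]
      _ ≤ ε := htail _ (fun ρ hρ => (Finset.mem_sdiff.mp hρ).2)
  have h2 : ∑ ρ ∈ ZJ x (x ^ b), mx ρ * kzs f.h s x t ρ =
      (∑ ρ ∈ CZJ c x (x ^ b), mx ρ * kzs f.h s x t ρ) + ZsI c f.h s x (x ^ b) t := by
    unfold CZJ ZsI IZJ
    rw [← Finset.sum_filter_add_sum_filter_not (ZJ x (x ^ b)) (CloseC c x)]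
    congr 1
    refine Finset.sum_congr rfl fun ρ hρ => ?_
    have h3 := Pool.Agent.Helper69.PP.iso_props_c hc (T := x) (ρ := ρ) (by
      rw [Finset.mem_filter] at hρ
      exact hρ.2)
    obtain ⟨h4, h5, _⟩ := h3
    rw [h5, one_mul]
    unfold kzs krs kz
    rw [h4, sub_self, mul_zero]
  have h3 : |∑ ρ ∈ CZJ c x (x ^ b), mx ρ * kzs f.h s x t ρ| ≤ GsC c f.h s x (x ^ b) t := by
    refine (Finset.abs_sum_le_sum_abs _ _).trans (le_of_eq ?_)
    unfold GsC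
    refine Finset.sum_congr rfl fun ρ _ => ?_
    rw [abs_mul, abs_of_nonneg (mx_nonneg _)]
  rw [h2] at h1
  have h4 := abs_le.mp h1
  have h5 := abs_le.mp h3
  rw [abs_le]
  constructor <;> linarith [h4.1, h4.2, h5.1, h5.2]

end Pool.Agent.Helper69.SM.SI
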